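import Pool.Agent.helper1.VD.SpecA2

set_option autoImplicit false

open scoped ContDiff Topology InnerProductSpace ComplexConjugate ENNReal
open MeasureTheory Filter Set

namespace Pool.Agent.VD

noncomputable section

/-- expansion of a linear map of phase space in the basis vectors -/
theorem AWYT_exp {d : ℕ} (S : P d →L[ℝ] P d) (q : P d) :
    S q = ∑ k, q.1 k • S (EuclideanSpace.single k 1, 0) + ∑ k, q.2 k • S (0, EuclideanSpace.single k 1) := by
  have h0 : q = (q.1, 0) + (0, q.2) := by simp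
  have h1 : ∀ v : V d, v = ∑ k, v k • (EuclideanSpace.single k (1 : ℝ) : V d) := by
    intro v
    have h := (EuclideanSpace.basisFun (Fin d) ℝ).sum_repr v
    simp only [EuclideanSpace.basisFun_repr, EuclideanSpace.basisFun_apply] at h
    exact h.symm
  have h2 : S (q.1, 0) = ∑ k, q.1 k • S (EuclideanSpace.single k 1, 0) := by
    have h3 : S (q.1, 0) = (S.comp (ContinuousLinearMap.inl ℝ (V d) (V d))) q.1 := by simp
    have h4 : (S.comp (ContinuousLinearMap.inl ℝ (V d) (V d))) q.1 =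
        (S.comp (ContinuousLinearMap.inl ℝ (V d) (V d))) (∑ k, q.1 k • (EuclideanSpace.single k (1 : ℝ) : V d)) :=
      congrArg _ (h1 q.1)
    rw [h3, h4, map_sum]
    refine Finset.sum_congr rfl fun k _ => ?_
    rw [map_smul]
    simp
  have h2' : S (0, q.2) = ∑ k, q.2 k • S (0, EuclideanSpace.single k 1) := by
    have h3 : S (0, q.2) = (S.comp (ContinuousLinearMap.inr ℝ (V d) (V d))) q.2 := by simp
    have h4 : (S.comp (ContinuousLinearMap.inr ℝ (V d) (V d))) q.2 =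
        (S.comp (ContinuousLinearMap.inr ℝ (V d) (V d))) (∑ k, q.2 k • (EuclideanSpace.single k (1 : ℝ) : V d)) :=
      congrArg _ (h1 q.2)
    rw [h3, h4, map_sum]
    refine Finset.sum_congr rfl fun k _ => ?_
    rw [map_smul]
    simp
  have h5 : S q = S ((q.1, 0) + (0, q.2)) := congrArg S h0
  rw [h5, map_add, h2, h2']

theorem AWYT_exp1 {d : ℕ} (S : P d →L[ℝ] P d) (q : P d) (i : Fin d) :
    (S q).1 i = ∑ k, q.1 k * (S (EuclideanSpace.single k 1, 0)).1 i + ∑ k, q.2 k * (S (0, EuclideanSpace.single k 1)).1 i := by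
  have h : (S q).1 i = (∑ k, q.1 k • S (EuclideanSpace.single k 1, 0) + ∑ k, q.2 k • S (0, EuclideanSpace.single k 1)).1 i :=
    congrArg (fun z : P d => z.1 i) (AWYT_exp S q)
  rw [h, Prod.fst_add, PiLp.add_apply, Prod.fst_sum, Prod.fst_sum, WithLp.ofLp_sum, WithLp.ofLp_sum, Finset.sum_apply, Finset.sum_apply]
  rfl

theorem AWYT_exp2 {d : ℕ} (S : P d →L[ℝ] P d) (q : P d) (i : Fin d) :
    (S q).2 i = ∑ k, q.1 k * (S (EuclideanSpace.single k 1, 0)).2 i + ∑ k, q.2 k * (S (0, EuclideanSpace.single k 1)).2 i := by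
  have h : (S q).2 i = (∑ k, q.1 k • S (EuclideanSpace.single k 1, 0) + ∑ k, q.2 k • S (0, EuclideanSpace.single k 1)).2 i :=
    congrArg (fun z : P d => z.2 i) (AWYT_exp S q)
  rw [h, Prod.snd_add, PiLp.add_apply, Prod.snd_sum, Prod.snd_sum, WithLp.ofLp_sum, WithLp.ofLp_sum, Finset.sum_apply, Finset.sum_apply]
  rfl

theorem AWYT_WA {d : ℕ} (S T : P d →L[ℝ] P d) : WA (S.comp T) = WA S * WA T + WB S * WC T := by
  ext i j
  simp only [WA, WB, WC, Matrix.of_apply, Matrix.add_apply, Matrix.mul_apply, ContinuousLinearMap.comp_apply]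
  rw [AWYT_exp1]
  push_cast
  exact congrArg₂ (· + ·) (Finset.sum_congr rfl fun k _ => mul_comm _ _) (Finset.sum_congr rfl fun k _ => mul_comm _ _)

theorem AWYT_WB {d : ℕ} (S T : P d →L[ℝ] P d) : WB (S.comp T) = WA S * WB T + WB S * WD T := by
  ext i j
  simp only [WA, WB, WD, Matrix.of_apply, Matrix.add_apply, Matrix.mul_apply, ContinuousLinearMap.comp_apply]
  rw [AWYT_exp1]
  push_cast
  exact congrArg₂ (· + ·) (Finset.sum_congr rfl fun k _ => mul_comm _ _) (Finset.sum_congr rfl fun k _ => mul_comm _ _)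

theorem AWYT_WC {d : ℕ} (S T : P d →L[ℝ] P d) : WC (S.comp T) = WC S * WA T + WD S * WC T := by
  ext i j
  simp only [WA, WC, WD, Matrix.of_apply, Matrix.add_apply, Matrix.mul_apply, ContinuousLinearMap.comp_apply]
  rw [AWYT_exp2]
  push_cast
  exact congrArg₂ (· + ·) (Finset.sum_congr rfl fun k _ => mul_comm _ _) (Finset.sum_congr rfl fun k _ => mul_comm _ _)

theorem AWYT_WD {d : ℕ} (S T : P d →L[ℝ] P d) : WD (S.comp T) = WC S * WB T + WD S * WD T := by
  ext i j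
  simp only [WB, WC, WD, Matrix.of_apply, Matrix.add_apply, Matrix.mul_apply, ContinuousLinearMap.comp_apply]
  rw [AWYT_exp2]
  push_cast
  exact congrArg₂ (· + ·) (Finset.sum_congr rfl fun k _ => mul_comm _ _) (Finset.sum_congr rfl fun k _ => mul_comm _ _)

/-- an entry of `Yf` as a linear function of the derivative -/
def AWYT_LY {d : ℕ} (Y0 P0 : MC d) (i j : Fin d) : (P d →L[ℝ] P d) →ₗ[ℝ] ℂ where
  toFun T := (WA T * Y0 + WB T * P0) i j
  map_add' S T := by
    simp only [WA, WB, Matrix.add_apply, Matrix.mul_apply, Matrix.of_apply, add_apply, Prod.fst_add, PiLp.add_apply, Complex.ofReal_add, add_mul, Finset.sum_add_distrib]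
    ring
  map_smul' c T := by
    simp only [WA, WB, Matrix.add_apply, Matrix.mul_apply, Matrix.of_apply, smul_apply, Prod.smul_fst, PiLp.smul_apply, smul_eq_mul, Complex.ofReal_mul, RingHom.id_apply, Complex.real_smul, mul_add, Finset.mul_sum, mul_assoc]

/-- an entry of `Pf` as a linear function of the derivative -/
def AWYT_LP {d : ℕ} (Y0 P0 : MC d) (i j : Fin d) : (P d →L[ℝ] P d) →ₗ[ℝ] ℂ where
  toFun T := (WC T * Y0 + WD T * P0) i j
  map_add' S T := by
    simp only [WC, WD, Matrix.add_apply, Matrix.mul_apply, Matrix.of_apply, add_apply, Prod.snd_add, PiLp.add_apply, Complex.ofReal_add, add_mul, Finset.sum_add_distrib]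
    ring
  map_smul' c T := by
    simp only [WC, WD, Matrix.add_apply, Matrix.mul_apply, Matrix.of_apply, smul_apply, Prod.smul_snd, PiLp.smul_apply, smul_eq_mul, Complex.ofReal_mul, RingHom.id_apply, Complex.real_smul, mul_add, Finset.mul_sum, mul_assoc]

theorem AWYT_Yf {d : ℕ} (f : P d → P d) (p : P d) (Y0 P0 : MC d) (i j : Fin d) :
    Yf f p Y0 P0 i j = (AWYT_LY Y0 P0 i j).toContinuousLinearMap (fderiv ℝ f p) := rfl

theorem AWYT_Pf {d : ℕ} (f : P d → P d) (p : P d) (Y0 P0 : MC d) (i j : Fin d) :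
    Pf f p Y0 P0 i j = (AWYT_LP Y0 P0 i j).toContinuousLinearMap (fderiv ℝ f p) := rfl

theorem AWYT_Ycomp {d : ℕ} (f g : P d → P d) (p q : P d) (Y0 P0 : MC d) (i j : Fin d) :
    (AWYT_LY Y0 P0 i j).toContinuousLinearMap ((fderiv ℝ f q).comp (fderiv ℝ g p)) = Yf f q (Yf g p Y0 P0) (Pf g p Y0 P0) i j := by
  have h1 : (AWYT_LY Y0 P0 i j).toContinuousLinearMap ((fderiv ℝ f q).comp (fderiv ℝ g p)) =
      (WA ((fderiv ℝ f q).comp (fderiv ℝ g p)) * Y0 + WB ((fderiv ℝ f q).comp (fderiv ℝ g p)) * P0) i j := rfl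
  have h2 : Yf f q (Yf g p Y0 P0) (Pf g p Y0 P0) =
      WA (fderiv ℝ f q) * (WA (fderiv ℝ g p) * Y0 + WB (fderiv ℝ g p) * P0) + WB (fderiv ℝ f q) * (WC (fderiv ℝ g p) * Y0 + WD (fderiv ℝ g p) * P0) := rfl
  rw [h1, h2, AWYT_WA, AWYT_WB]
  simp only [Matrix.add_mul, Matrix.mul_add, Matrix.mul_assoc]
  exact congrFun (congrFun (add_add_add_comm _ _ _ _) i) j

theorem AWYT_Pcomp {d : ℕ} (f g : P d → P d) (p q : P d) (Y0 P0 : MC d) (i j : Fin d) :
    (AWYT_LP Y0 P0 i j).toContinuousLinearMap ((fderiv ℝ f q).comp (fderiv ℝ g p)) = Pf f q (Yf g p Y0 P0) (Pf g p Y0 P0) i j := by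
  have h1 : (AWYT_LP Y0 P0 i j).toContinuousLinearMap ((fderiv ℝ f q).comp (fderiv ℝ g p)) =
      (WC ((fderiv ℝ f q).comp (fderiv ℝ g p)) * Y0 + WD ((fderiv ℝ f q).comp (fderiv ℝ g p)) * P0) i j := rfl
  have h2 : Pf f q (Yf g p Y0 P0) (Pf g p Y0 P0) =
      WC (fderiv ℝ f q) * (WA (fderiv ℝ g p) * Y0 + WB (fderiv ℝ g p) * P0) + WD (fderiv ℝ f q) * (WC (fderiv ℝ g p) * Y0 + WD (fderiv ℝ g p) * P0) := rfl
  rw [h1, h2, AWYT_WC, AWYT_WD]
  simp only [Matrix.add_mul, Matrix.mul_add, Matrix.mul_assoc]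
  exact congrFun (congrFun (add_add_add_comm _ _ _ _) i) j

theorem AWYT_proof (hGXH : GXH_stmt) (hGUN : GUN_stmt) : AWYT_stmt := by
  intro d G Φ hG hΦ Y0 P0
  have _ := hGXH
  obtain ⟨hC1, -, -, -⟩ := hGUN d G Φ hG hΦ
  have hsm : ContDiff ℝ ∞ fun x : P d × ℝ => fderiv ℝ (Φ x.2) x.1 := by
    have hu : ContDiff ℝ ∞ (Function.uncurry fun (x : P d × ℝ) (y : P d) => Φ x.2 y) := by
      have h2 : ContDiff ℝ ∞ fun z : (P d × ℝ) × P d => (z.1.2, z.2) := by fun_prop
      exact hΦ.smooth.comp h2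
    exact ContDiff.fderiv (m := ∞) (n := ∞) hu contDiff_fst (by simp)
  refine ⟨fun i j => ⟨?_, ?_⟩, fun p t i j => ⟨?_, ?_⟩, fun p => ?_⟩
  · simp only [AWYT_Yf]
    exact (AWYT_LY Y0 P0 i j).toContinuousLinearMap.contDiff.comp hsm
  · simp only [AWYT_Pf]
    exact (AWYT_LP Y0 P0 i j).toContinuousLinearMap.contDiff.comp hsm
  · rw [← AWYT_Ycomp]
    simp only [AWYT_Yf]
    exact (AWYT_LY Y0 P0 i j).toContinuousLinearMap.hasFDerivAt.comp_hasDerivAt t (hC1.var p t)
  · rw [← AWYT_Pcomp]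
    simp only [AWYT_Pf]
    exact (AWYT_LP Y0 P0 i j).toContinuousLinearMap.hasFDerivAt.comp_hasDerivAt t (hC1.var p t)
  · have h0 : Φ 0 = id := funext hΦ.zero
    have h1 : fderiv ℝ (Φ 0) p = ContinuousLinearMap.id ℝ (P d) := by rw [h0]; exact fderiv_id
    have hA : WA (ContinuousLinearMap.id ℝ (P d)) = (1 : MC d) := by
      ext i j
      by_cases hij : i = j
      · subst hij; simp [WA]
      · simp [WA, hij]
    have hB : WB (ContinuousLinearMap.id ℝ (P d)) = (0 : MC d) := by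
      ext i j
      simp [WB]
    have hC : WC (ContinuousLinearMap.id ℝ (P d)) = (0 : MC d) := by
      ext i j
      simp [WC]
    have hD : WD (ContinuousLinearMap.id ℝ (P d)) = (1 : MC d) := by
      ext i j
      by_cases hij : i = j
      · subst hij; simp [WD]
      · simp [WD, hij]
    have hY : Yf (Φ 0) p Y0 P0 = WA (fderiv ℝ (Φ 0) p) * Y0 + WB (fderiv ℝ (Φ 0) p) * P0 := rfl
    have hP : Pf (Φ 0) p Y0 P0 = WC (fderiv ℝ (Φ 0) p) * Y0 + WD (fderiv ℝ (Φ 0) p) * P0 := rfl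
    rw [hY, hP, h1, hA, hB, hC, hD]
    simp

end

end Pool.Agent.VD

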