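import Pool.Agent.helper74.VD.SpecA4

/-!
# Row `vd:AUMD` (MP_07c750_an), part 1: kernels on the index set, composition, operators
-/

set_option autoImplicit false

open scoped ContDiff Topology InnerProductSpace ComplexConjugate ENNReal
open MeasureTheory Filter Set

namespace Pool.Agent.VD

open Pool.Agent.VQ (CH cmZ)

noncomputable section

variable {Γ : Type} {d : ℕ} [Group Γ]

/-- the facts on the measure which are used -/
structure AUMD_M (G : V d → V d →L[ℝ] V d) (r0 R : ℝ) : Prop where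
  cnt : Countable Γ
  sf : SigmaFinite (mY Γ d)
  mp : ∀ γ : Γ, MeasurePreserving (fun y : YS Γ d => γ • y) (mY Γ d) (mY Γ d)
  gm : MeasurableSet (GW Γ G r0 2 R)
  gi : ∀ (γ : Γ) (y : YS Γ d), γ • y ∈ GW Γ G r0 2 R ↔ y ∈ GW Γ G r0 2 R
  vol : volume {p : P d | ‖p.1‖ ≤ r0 ∧ |Ep G p| ≤ 2 * R ^ (-(1 / 4) : ℝ)} < ⊤

/-- kernels supported in the window -/
def AUMD_S (G : V d → V d →L[ℝ] V d) (r0 R : ℝ) (K : YS Γ d → YS Γ d → ℂ) : Prop :=
  ∀ y y', K y y' ≠ 0 → y ∈ GW Γ G r0 2 R ∧ y' ∈ GW Γ G r0 2 R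

/-- the neighbours -/
def AUMD_B (G : V d → V d →L[ℝ] V d) (r0 R : ℝ) (S : Finset Γ) (y : YS Γ d) : Set (YS Γ d) :=
  {y' | y' ∈ GW Γ G r0 2 R ∧ y.1⁻¹ * y'.1 ∈ S}

omit [Group Γ] in
theorem AUMD_fst (S : Finset Γ) : MeasurableSet {y : YS Γ d | y.1 ∈ S} := by
  let _ : MeasurableSpace Γ := ⊤
  have h : Measurable (Prod.fst : Γ × P d → Γ) := measurable_fst
  exact h (show MeasurableSet {γ : Γ | γ ∈ S} from trivial)

/-- the volume of the neighbours of the base point -/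
theorem AUMD_v1 {G : V d → V d →L[ℝ] V d} {r0 R : ℝ} (hM : AUMD_M (Γ := Γ) G r0 R) (S : Finset Γ) :
    mY Γ d {y : YS Γ d | y ∈ GW Γ G r0 2 R ∧ y.1 ∈ S} < ⊤ := by
  let _ : MeasurableSpace Γ := ⊤
  have : MeasurableSingletonClass Γ := ⟨fun _ => trivial⟩
  have h1 : {y : YS Γ d | y ∈ GW Γ G r0 2 R ∧ y.1 ∈ S} =
      ((S : Set Γ) ×ˢ {p : P d | ‖p.1‖ ≤ r0 ∧ |Ep G p| ≤ 2 * R ^ (-(1 / 4) : ℝ)} : Set (Γ × P d)) := by
    ext y
    constructor
    · rintro ⟨h1, h2⟩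
      exact ⟨h2, h1⟩
    · rintro ⟨h1, h2⟩
      exact ⟨h2, h1⟩
  rw [h1]
  have h2 : mY Γ d ((S : Set Γ) ×ˢ {p : P d | ‖p.1‖ ≤ r0 ∧ |Ep G p| ≤ 2 * R ^ (-(1 / 4) : ℝ)} : Set (Γ × P d)) =
      (Measure.count : Measure Γ) (S : Set Γ) * volume {p : P d | ‖p.1‖ ≤ r0 ∧ |Ep G p| ≤ 2 * R ^ (-(1 / 4) : ℝ)} :=
    Measure.prod_prod _ _
  rw [h2]
  refine ENNReal.mul_lt_top ?_ hM.vol
  rw [Measure.count_apply_finset]
  exact ENNReal.natCast_lt_top _

/-- left multiplication as a measurable equivalence -/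
def AUMD_e {G : V d → V d →L[ℝ] V d} {r0 R : ℝ} (hM : AUMD_M (Γ := Γ) G r0 R) (γ : Γ) : YS Γ d ≃ᵐ YS Γ d where
  toFun y := γ • y
  invFun y := γ⁻¹ • y
  left_inv y := inv_smul_smul γ y
  right_inv y := smul_inv_smul γ y
  measurable_toFun := (hM.mp γ).measurable
  measurable_invFun := (hM.mp γ⁻¹).measurable

theorem AUMD_emb {G : V d → V d →L[ℝ] V d} {r0 R : ℝ} (hM : AUMD_M (Γ := Γ) G r0 R) (γ : Γ) :
    MeasurableEmbedding fun y : YS Γ d => γ • y := (AUMD_e hM γ).measurableEmbedding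

theorem AUMD_vol {G : V d → V d →L[ℝ] V d} {r0 R : ℝ} (hM : AUMD_M (Γ := Γ) G r0 R) (S : Finset Γ) (y : YS Γ d) :
    MeasurableSet (AUMD_B G r0 R S y) ∧ mY Γ d (AUMD_B G r0 R S y) ≤ mY Γ d {y : YS Γ d | y ∈ GW Γ G r0 2 R ∧ y.1 ∈ S} := by
  have hset : AUMD_B G r0 R S y = (fun y' : YS Γ d => y.1⁻¹ • y') ⁻¹' {y : YS Γ d | y ∈ GW Γ G r0 2 R ∧ y.1 ∈ S} := by
    ext y'
    constructor
    · rintro ⟨h1, h2⟩
      exact ⟨(hM.gi _ _).2 h1, h2⟩
    · rintro ⟨h1, h2⟩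
      exact ⟨(hM.gi _ _).1 h1, h2⟩
  have hms : MeasurableSet {y : YS Γ d | y ∈ GW Γ G r0 2 R ∧ y.1 ∈ S} := hM.gm.inter (AUMD_fst S)
  rw [hset]
  exact ⟨(hM.mp y.1⁻¹).measurable hms, le_of_eq ((hM.mp y.1⁻¹).measure_preimage hms.nullMeasurableSet)⟩

theorem AUMD_ex {X : Type} [MeasurableSpace X] {μ : Measure X} {f g : X → ℂ} (h : ∫ x, f x * g x ∂μ ≠ 0) :
    ∃ x, f x ≠ 0 ∧ g x ≠ 0 := by
  by_contra hcon
  push Not at hcon
  apply h
  have : ∀ x, f x * g x = 0 := by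
    intro x
    by_cases hf : f x = 0
    · rw [hf, zero_mul]
    · rw [hcon x hf, mul_zero]
  simp only [this, integral_zero]

theorem AUMD_b0 {f : YS Γ d → ℂ} {b : ℝ} (h : ∀ y, ‖f y‖ ≤ b) : 0 ≤ b :=
  (norm_nonneg _).trans (h ((1 : Γ), (0 : P d)))

/-- integrals against a kernel -/
theorem AUMD_int {G : V d → V d →L[ℝ] V d} {r0 R : ℝ} (hM : AUMD_M (Γ := Γ) G r0 R)
    {K : YS Γ d → YS Γ d → ℂ} (hK : KY K) (hS : AUMD_S G r0 R K) :
    ∃ W : ℝ, 0 ≤ W ∧ ∀ (v : YS Γ d → ℂ) (b : ℝ), Measurable v → (∀ q, ‖v q‖ ≤ b) → ∀ p,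
      Integrable (fun q => K p q * v q) (mY Γ d) ∧ ‖∫ q, K p q * v q ∂mY Γ d‖ ≤ W * b := by
  obtain ⟨B, hB⟩ := hK.bdd
  obtain ⟨T, hT⟩ := hK.range
  have hB0 : 0 ≤ B := AUMD_b0 (hB ((1 : Γ), (0 : P d)))
  refine ⟨B * (mY Γ d {y : YS Γ d | y ∈ GW Γ G r0 2 R ∧ y.1 ∈ T}).toReal, mul_nonneg hB0 ENNReal.toReal_nonneg, ?_⟩
  intro v b hv hb p
  have hb0 : 0 ≤ b := AUMD_b0 hb
  obtain ⟨hSm, hSv⟩ := AUMD_vol hM T p
  set S := AUMD_B G r0 R T p with hSdef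
  have hSfin : mY Γ d S < ⊤ := hSv.trans_lt (AUMD_v1 hM T)
  have hle : ∀ q, ‖K p q * v q‖ ≤ S.indicator (fun _ => B * b) q := by
    intro q
    by_cases hq : q ∈ S
    · rw [indicator_of_mem hq, norm_mul]
      exact mul_le_mul (hB p q) (hb q) (norm_nonneg _) hB0
    · rw [indicator_of_notMem hq]
      have : K p q = 0 := by
        by_contra h
        exact hq ⟨(hS p q h).2, hT p q h⟩
      rw [this, zero_mul, norm_zero]
  have hint : Integrable (S.indicator fun _ => B * b) (mY Γ d) :=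
    (integrable_indicator_iff hSm).2 (integrableOn_const hSfin.ne)
  have hmeas : AEStronglyMeasurable (fun q => K p q * v q) (mY Γ d) :=
    ((hK.meas.comp measurable_prodMk_left).mul hv).aestronglyMeasurable
  refine ⟨hint.mono' hmeas (Eventually.of_forall hle), ?_⟩
  refine (norm_integral_le_of_norm_le hint (Eventually.of_forall hle)).trans ?_
  rw [integral_indicator_const _ hSm, smul_eq_mul]
  have h1 : (mY Γ d).real S ≤ (mY Γ d {y : YS Γ d | y ∈ GW Γ G r0 2 R ∧ y.1 ∈ T}).toReal :=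
    ENNReal.toReal_mono (AUMD_v1 hM T).ne hSv
  have h2 := mul_le_mul_of_nonneg_right h1 (mul_nonneg hB0 hb0)
  refine h2.trans (le_of_eq ?_)
  ring

theorem AUMD_rel (a b c : YS Γ d) : a.1⁻¹ * c.1 = (a.1⁻¹ * b.1) * (b.1⁻¹ * c.1) := by group

open Classical in
theorem AUMD_mul {S T : Finset Γ} {a b : Γ} (ha : a ∈ S) (hb : b ∈ T) :
    a * b ∈ (S ×ˢ T).image fun x => x.1 * x.2 := Finset.mem_image.2 ⟨(a, b), Finset.mem_product.2 ⟨ha, hb⟩, rfl⟩

/-- composition -/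
theorem AUMD_cmp {G : V d → V d →L[ℝ] V d} {r0 R : ℝ} (hM : AUMD_M (Γ := Γ) G r0 R)
    {K L : YS Γ d → YS Γ d → ℂ} (hK : KY K) (hS : AUMD_S G r0 R K) (hL : KY L) (hS' : AUMD_S G r0 R L) :
    KY (cmZ (mY Γ d) K L) ∧ AUMD_S G r0 R (cmZ (mY Γ d) K L) := by
  classical
  have := hM.sf
  obtain ⟨W, hW0, hW⟩ := AUMD_int hM hK hS
  obtain ⟨B, hB⟩ := hL.bdd
  obtain ⟨T, hT⟩ := hK.range
  obtain ⟨T', hT'⟩ := hL.range
  refine ⟨⟨?_, ⟨W * B, fun p q => ?_⟩, ?_, ⟨(T ×ˢ T').image fun x => x.1 * x.2, fun p q h => ?_⟩⟩, fun p q h => ?_⟩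
  · have h1 : Measurable (Function.uncurry fun (y : YS Γ d × YS Γ d) (x : YS Γ d) => K y.1 x * L x y.2) := by
      have m1 : Measurable fun y : (YS Γ d × YS Γ d) × YS Γ d => K y.1.1 y.2 :=
        hK.meas.comp (measurable_fst.fst.prodMk measurable_snd)
      have m2 : Measurable fun y : (YS Γ d × YS Γ d) × YS Γ d => L y.2 y.1.2 :=
        hL.meas.comp (measurable_snd.prodMk measurable_fst.snd)
      exact m1.mul m2
    exact (h1.stronglyMeasurable.integral_prod_right (ν := mY Γ d)).measurable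
  · exact (hW (fun x => L x q) B (hL.meas.comp measurable_prodMk_right) (fun x => hB x q) p).2
  · intro γ p q
    have h1 := (hM.mp γ).integral_comp (AUMD_emb hM γ) (fun x => K (γ • p) x * L x (γ • q))
    show ∫ x, K (γ • p) x * L x (γ • q) ∂mY Γ d = ∫ x, K p x * L x q ∂mY Γ d
    rw [← h1]
    refine integral_congr_ae (Eventually.of_forall fun x => ?_)
    show K (γ • p) (γ • x) * L (γ • x) (γ • q) = K p x * L x q
    rw [hK.inv, hL.inv]
  · obtain ⟨x, hx1, hx2⟩ := AUMD_ex h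
    rw [AUMD_rel p x q]
    exact AUMD_mul (hT p x hx1) (hT' x q hx2)
  · obtain ⟨x, hx1, hx2⟩ := AUMD_ex h
    exact ⟨(hS p x hx1).1, (hS' x q hx2).2⟩

/-- the operator of a composition -/
theorem AUMD_fub {G : V d → V d →L[ℝ] V d} {r0 R : ℝ} (hM : AUMD_M (Γ := Γ) G r0 R)
    {K L : YS Γ d → YS Γ d → ℂ} (hK : KY K) (hS : AUMD_S G r0 R K) (hL : KY L) (hS' : AUMD_S G r0 R L)
    {v : YS Γ d → ℂ} (hv : Measurable v) {b : ℝ} (hb : ∀ q, ‖v q‖ ≤ b) (p : YS Γ d) :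
    Op (cmZ (mY Γ d) K L) v p = Op K (Op L v) p := by
  classical
  have := hM.sf
  obtain ⟨B, hB⟩ := hK.bdd
  obtain ⟨B', hB'⟩ := hL.bdd
  obtain ⟨T, hT⟩ := hK.range
  obtain ⟨T', hT'⟩ := hL.range
  have hB0 : 0 ≤ B := AUMD_b0 (hB ((1 : Γ), (0 : P d)))
  have hB0' : 0 ≤ B' := AUMD_b0 (hB' ((1 : Γ), (0 : P d)))
  obtain ⟨hSm, hSv⟩ := AUMD_vol hM T p
  obtain ⟨hSm', hSv'⟩ := AUMD_vol hM ((T ×ˢ T').image fun x => x.1 * x.2) p
  set S := AUMD_B G r0 R T p with hSdef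
  set S' := AUMD_B G r0 R ((T ×ˢ T').image fun x => x.1 * x.2) p with hSdef'
  have hSfin : mY Γ d S < ⊤ := hSv.trans_lt (AUMD_v1 hM _)
  have hSfin' : mY Γ d S' < ⊤ := hSv'.trans_lt (AUMD_v1 hM _)
  have hle : ∀ y : YS Γ d × YS Γ d, ‖K p y.2 * L y.2 y.1 * v y.1‖ ≤ (S' ×ˢ S).indicator (fun _ => B * B' * b) y := by
    intro y
    by_cases hy : y ∈ S' ×ˢ S
    · rw [indicator_of_mem hy, norm_mul, norm_mul]
      exact mul_le_mul (mul_le_mul (hB p y.2) (hB' y.2 y.1) (norm_nonneg _) hB0) (hb y.1) (norm_nonneg _)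
        (mul_nonneg hB0 hB0')
    · rw [indicator_of_notMem hy]
      have : K p y.2 * L y.2 y.1 = 0 := by
        by_contra h
        have h1 : K p y.2 ≠ 0 := fun h0 => h (by rw [h0, zero_mul])
        have h2 : L y.2 y.1 ≠ 0 := fun h0 => h (by rw [h0, mul_zero])
        refine hy ⟨⟨(hS' _ _ h2).2, ?_⟩, ⟨(hS _ _ h1).2, hT _ _ h1⟩⟩
        rw [AUMD_rel p y.2 y.1]
        exact AUMD_mul (hT _ _ h1) (hT' _ _ h2)
      rw [this, zero_mul, norm_zero]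
  have hfin : ((mY Γ d).prod (mY Γ d)) (S' ×ˢ S) ≠ ⊤ := by
    rw [Measure.prod_prod]
    exact ENNReal.mul_ne_top hSfin'.ne hSfin.ne
  have hint : Integrable ((S' ×ˢ S).indicator fun _ => B * B' * b) ((mY Γ d).prod (mY Γ d)) :=
    (integrable_indicator_iff (hSm'.prod hSm)).2 (integrableOn_const hfin)
  have hmeas : Measurable fun y : YS Γ d × YS Γ d => K p y.2 * L y.2 y.1 * v y.1 := by
    have m1 : Measurable fun y : YS Γ d × YS Γ d => K p y.2 :=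
      hK.meas.comp (measurable_const.prodMk measurable_snd)
    have m2 : Measurable fun y : YS Γ d × YS Γ d => L y.2 y.1 :=
      hL.meas.comp (measurable_snd.prodMk measurable_fst)
    exact (m1.mul m2).mul (hv.comp measurable_fst)
  have hI : Integrable (Function.uncurry fun q x : YS Γ d => K p x * L x q * v q) ((mY Γ d).prod (mY Γ d)) :=
    hint.mono' hmeas.aestronglyMeasurable (Eventually.of_forall hle)
  have h1 := integral_integral_swap hI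
  calc Op (cmZ (mY Γ d) K L) v p = ∫ q, ∫ x, K p x * L x q * v q ∂mY Γ d ∂mY Γ d := by
        refine integral_congr_ae (Eventually.of_forall fun q => ?_)
        exact (integral_mul_const (v q) fun x => K p x * L x q).symm
    _ = ∫ x, ∫ q, K p x * L x q * v q ∂mY Γ d ∂mY Γ d := h1
    _ = Op K (Op L v) p := by
        refine integral_congr_ae (Eventually.of_forall fun x => ?_)
        show ∫ q, K p x * L x q * v q ∂mY Γ d = K p x * ∫ q, L x q * v q ∂mY Γ d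
        rw [← integral_const_mul]
        refine integral_congr_ae (Eventually.of_forall fun q => ?_)
        exact mul_assoc _ _ _

/-- associativity -/
theorem AUMD_ass {G : V d → V d →L[ℝ] V d} {r0 R : ℝ} (hM : AUMD_M (Γ := Γ) G r0 R)
    {K L N : YS Γ d → YS Γ d → ℂ} (hK : KY K) (hS : AUMD_S G r0 R K) (hL : KY L) (hS' : AUMD_S G r0 R L) (hN : KY N)
    (y y' : YS Γ d) : cmZ (mY Γ d) (cmZ (mY Γ d) K L) N y y' = cmZ (mY Γ d) K (cmZ (mY Γ d) L N) y y' := by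
  obtain ⟨B, hB⟩ := hN.bdd
  exact AUMD_fub hM hK hS hL hS' (v := fun x => N x y') (hN.meas.comp measurable_prodMk_right) (b := B) (fun x => hB x y') y

/-- the operator preserves the class `FP` -/
theorem AUMD_FP [MulAction Γ (V d)] {G : V d → V d →L[ℝ] V d} {r0 R : ℝ} (hM : AUMD_M (Γ := Γ) G r0 R)
    {K : YS Γ d → YS Γ d → ℂ} (hK : KY K) (hS : AUMD_S G r0 R K) {Λ : Subgroup Γ} {F : Set (V d)} {T : Set Γ} (hD : Dm Λ F T)
    {v : YS Γ d → ℂ} (hv : FP Λ T v) : FP Λ T (Op K v) := by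
  classical
  have := hM.sf
  obtain ⟨W, hW0, hW⟩ := AUMD_int hM hK hS
  obtain ⟨b, hb⟩ := hv.bdd
  refine ⟨?_, ⟨W * b, fun p => (hW v b hv.meas hb p).2⟩, ?_, ?_⟩
  · have h1 : Measurable (Function.uncurry fun (p q : YS Γ d) => K p q * v q) :=
      hK.meas.mul (hv.meas.comp measurable_snd)
    exact (h1.stronglyMeasurable.integral_prod_right (ν := mY Γ d)).measurable
  · intro γ hγ p
    have h1 := (hM.mp γ).integral_comp (AUMD_emb hM γ) (fun x => K (γ • p) x * v x)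
    show ∫ x, K (γ • p) x * v x ∂mY Γ d = ∫ x, K p x * v x ∂mY Γ d
    rw [← h1]
    refine integral_congr_ae (Eventually.of_forall fun x => ?_)
    show K (γ • p) (γ • x) * v (γ • x) = K p x * v x
    rw [hK.inv, hv.inv γ hγ]
  · rcases hD with ⟨-, -, hT⟩ | ⟨-, -, hT⟩
    · refine ⟨{1}, fun y hy _ => ?_⟩
      rw [hT] at hy
      rw [Finset.mem_singleton]
      exact hy
    · obtain ⟨S, hSv⟩ := hv.supp
      obtain ⟨S', hS'⟩ := hK.range
      refine ⟨(S ×ˢ S').image fun x => x.1 * x.2⁻¹, fun y _ hy => ?_⟩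
      obtain ⟨q, hq1, hq2⟩ := AUMD_ex hy
      refine Finset.mem_image.2 ⟨(q.1, y.1⁻¹ * q.1), Finset.mem_product.2 ⟨hSv q (by rw [hT]; exact mem_univ _) hq2, hS' y q hq1⟩, ?_⟩
      show q.1 * (y.1⁻¹ * q.1)⁻¹ = y.1
      group

/-- the transposed kernel -/
theorem AUMD_tr {G : V d → V d →L[ℝ] V d} {r0 R : ℝ} {K : YS Γ d → YS Γ d → ℂ} (hK : KY K) (hS : AUMD_S G r0 R K) :
    KY (fun q x : YS Γ d => conj (K x q)) ∧ AUMD_S G r0 R (fun q x : YS Γ d => conj (K x q)) := by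
  classical
  obtain ⟨B, hB⟩ := hK.bdd
  obtain ⟨S, hS'⟩ := hK.range
  have hne : ∀ x q : YS Γ d, conj (K x q) ≠ 0 → K x q ≠ 0 := fun x q h h0 => h (by rw [h0, map_zero])
  refine ⟨⟨?_, ⟨B, fun y y' => ?_⟩, ?_, ⟨S.image fun x => x⁻¹, fun y y' h => ?_⟩⟩, fun y y' h => ?_⟩
  · have h1 : Measurable fun x : YS Γ d × YS Γ d => K x.2 x.1 := hK.meas.comp (measurable_snd.prodMk measurable_fst)
    exact Complex.continuous_conj.measurable.comp h1
  · rw [RCLike.norm_conj]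
    exact hB y' y
  · intro γ y y'
    show conj (K (γ • y') (γ • y)) = conj (K y' y)
    rw [hK.inv]
  · refine Finset.mem_image.2 ⟨y'.1⁻¹ * y.1, hS' y' y (hne _ _ h), ?_⟩
    group
  · have h1 := hS y' y (hne _ _ h)
    exact ⟨h1.2, h1.1⟩

theorem AUMD_FP2 [MulAction Γ (V d)] {G : V d → V d →L[ℝ] V d} {r0 R : ℝ} (hM : AUMD_M (Γ := Γ) G r0 R)
    {K : YS Γ d → YS Γ d → ℂ} (hK : KY K) (hS : AUMD_S G r0 R K) {Λ : Subgroup Γ} {F : Set (V d)} {T : Set Γ} (hD : Dm Λ F T)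
    {v : YS Γ d → ℂ} (hv : FP Λ T v) : FP Λ T (fun q => ∫ x, v x * conj (K x q) ∂mY Γ d) := by
  obtain ⟨h1, h2⟩ := AUMD_tr hK hS
  have h3 := AUMD_FP hM h1 h2 hD hv
  have h4 : (fun q => ∫ x, v x * conj (K x q) ∂mY Γ d) = Op (fun q x : YS Γ d => conj (K x q)) v := by
    funext q
    show ∫ x, v x * conj (K x q) ∂mY Γ d = ∫ x, conj (K x q) * v x ∂mY Γ d
    refine integral_congr_ae (Eventually.of_forall fun x => ?_)
    exact mul_comm _ _
  rw [h4]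
  exact h3

end

end Pool.Agent.VD
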