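import Pool.Agent.helper62.VD.SpecL2
import Pool.Agent.helper79.VD.AUMDa

/-!
# Row `vd:ALB0` (MP_07c750_an): the first step of the long beam
-/

set_option autoImplicit false

open scoped ContDiff Topology InnerProductSpace ComplexConjugate ENNReal
open MeasureTheory Filter Set

namespace Pool.Agent.VD

open Pool.Agent.VQ (CH cmZ)

noncomputable section

variable {Γ : Type} {d : ℕ} [Group Γ] [MulAction Γ (V d)]

/-! ### functions on the universal covering -/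

theorem ALB0_sub {Λ : Subgroup Γ} {F : Set (V d)} {φ ψ : V d → ℂ} (h : FH Λ F φ) (h' : FH Λ F ψ) : FH Λ F (fun z => φ z - ψ z) := by
  obtain ⟨b, hb⟩ := h.supp
  obtain ⟨b', hb'⟩ := h'.supp
  refine ⟨h.cont.sub h'.cont, fun γ hγ z => by rw [h.inv γ hγ, h'.inv γ hγ], max b b', fun z hz hne => ?_⟩
  by_cases h0 : φ z = 0
  · have h1 : ψ z ≠ 0 := fun h1 => hne (by rw [h0, h1, sub_zero])
    exact (hb' z hz h1).trans (le_max_right _ _)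
  · exact (hb z hz h0).trans (le_max_left _ _)

theorem ALB0_add {Λ : Subgroup Γ} {F : Set (V d)} {φ ψ : V d → ℂ} (h : FH Λ F φ) (h' : FH Λ F ψ) : FH Λ F (fun z => φ z + ψ z) := by
  obtain ⟨b, hb⟩ := h.supp
  obtain ⟨b', hb'⟩ := h'.supp
  refine ⟨h.cont.add h'.cont, fun γ hγ z => by rw [h.inv γ hγ, h'.inv γ hγ], max b b', fun z hz hne => ?_⟩
  by_cases h0 : φ z = 0
  · have h1 : ψ z ≠ 0 := fun h1 => hne (by rw [h0, h1, add_zero])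
    exact (hb' z hz h1).trans (le_max_right _ _)
  · exact (hb z hz h0).trans (le_max_left _ _)

theorem ALB0_smul {Λ : Subgroup Γ} {F : Set (V d)} {φ : V d → ℂ} (c : ℂ) (h : FH Λ F φ) : FH Λ F (fun z => c * φ z) := by
  obtain ⟨b, hb⟩ := h.supp
  refine ⟨continuous_const.mul h.cont, fun γ hγ z => by rw [h.inv γ hγ], b, fun z hz hne => hb z hz fun h0 => hne (by rw [h0, mul_zero])⟩

theorem ALB0_qf (M : MC d) : Continuous fun w : V d => qf M w := by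
  unfold qf
  fun_prop

/-- Gaussian packets are continuous with compact support -/
theorem ALB0_bm {G : V d → V d →L[ℝ] V d} {ch : ℝ → ℝ} (hch : CH ch) (hdc : Continuous (dens G)) (hdp : ∀ x, 0 < dens G x)
    (hc : ∀ γ : Γ, Continuous fun x : V d => γ • x) {ζ R : ℝ} (hR : 1 ≤ R) (hζ : ζ ≤ 1 / 8) (M : MC d) (q : P d) (g : Γ) :
    FH (⊥ : Subgroup Γ) univ (fun z => bm G ch ζ R M q (g⁻¹ • z)) := by
  have hcb : Continuous fun w : V d => bm G ch ζ R M q w := by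
    unfold bm
    have h1 : Continuous fun w : V d => ch (R ^ (1 - 2 * ζ) * ‖w - q.1‖ ^ 2) / Real.sqrt (dens G w) := by
      refine Continuous.div (hch.smooth.continuous.comp (by fun_prop)) (hdc.sqrt) fun w => ?_
      exact (Real.sqrt_pos.2 (hdp w)).ne'
    have h2 : Continuous fun w : V d => qf M (w - q.1) := (ALB0_qf M).comp (continuous_id.sub continuous_const)
    have h3 : Continuous fun w : V d => (((⟪q.2, w - q.1⟫_ℝ : ℝ) : ℂ)) :=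
      Complex.continuous_ofReal.comp (continuous_const.inner (continuous_id.sub continuous_const))
    exact (Complex.continuous_ofReal.comp h1).mul (Complex.continuous_exp.comp (continuous_const.mul (h3.add (h2.div_const 2))))
  refine ⟨hcb.comp (hc g⁻¹), fun γ hγ z => ?_, ?_⟩
  · rw [Subgroup.mem_bot] at hγ
    rw [hγ, one_smul]
  · obtain ⟨b, hb⟩ := ((isCompact_closedBall q.1 (1 : ℝ)).image (hc g)).isBounded.exists_norm_le
    refine ⟨b, fun z _ hne => hb z ⟨g⁻¹ • z, ?_, smul_inv_smul g z⟩⟩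
    rw [mem_closedBall_iff_norm]
    by_contra hcon
    push Not at hcon
    apply hne
    have h1 : 1 ≤ R ^ (1 - 2 * ζ) * ‖g⁻¹ • z - q.1‖ ^ 2 := by
      have h2 : 1 ≤ R ^ (1 - 2 * ζ) := Real.one_le_rpow hR (by linarith)
      have h3 : 1 ≤ ‖g⁻¹ • z - q.1‖ ^ 2 := by nlinarith
      nlinarith
    unfold bm
    rw [hch.zero _ h1, zero_div, Complex.ofReal_zero, zero_mul]

theorem ALB0_nn (G : V d → V d →L[ℝ] V d) (F : Set (V d)) (c : ℂ) (φ : V d → ℂ) : nn G F (fun z => c * φ z) = ‖c‖ ^ 2 * nn G F φ := by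
  unfold nn
  rw [← integral_const_mul]
  refine integral_congr_ae (Eventually.of_forall fun z => ?_)
  show ‖c * φ z‖ ^ 2 = ‖c‖ ^ 2 * ‖φ z‖ ^ 2
  rw [norm_mul, mul_pow]

/-- linearity of the coefficients -/
theorem ALB0_QF {G : V d → V d →L[ℝ] V d} (hfin : ∀ S : Set (V d), IsCompact S → mv G S < ⊤) {χ : V d → ℝ} {ch : ℝ → ℝ} {ζ R : ℝ}
    (hg : ∀ γ : Γ, Continuous fun x : P d × V d => Gp G χ ch ζ R ((γ, x.1) : YS Γ d) x.2) {φ ψ : V d → ℂ}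
    (h : FH (⊥ : Subgroup Γ) univ φ) (h' : FH (⊥ : Subgroup Γ) univ ψ) (y : YS Γ d) :
    QF G χ ch ζ R (fun z => φ z - ψ z) y = QF G χ ch ζ R φ y - QF G χ ch ζ R ψ y := by
  have hfc : IsFiniteMeasureOnCompacts (mv G) := ⟨fun {S} hS => hfin S hS⟩
  have hi : ∀ φ : V d → ℂ, FH (⊥ : Subgroup Γ) univ φ → Integrable (fun z => φ z * conj (Gp G χ ch ζ R y z)) (mv G) := by
    intro φ hφ
    obtain ⟨b, hb⟩ := hφ.supp
    have hc : Continuous fun z => φ z * conj (Gp G χ ch ζ R y z) := by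
      have h1 : Continuous fun z : V d => Gp G χ ch ζ R y z :=
        (hg y.1).comp ((continuous_const (y := y.2)).prodMk continuous_id)
      exact hφ.cont.mul (Complex.continuous_conj.comp h1)
    refine hc.integrable_of_hasCompactSupport (HasCompactSupport.intro (isCompact_closedBall (0 : V d) b) fun z hz => ?_)
    have h0 : φ z = 0 := by
      by_contra hne
      apply hz
      rw [mem_closedBall_zero_iff]
      exact hb z (mem_univ _) hne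
    rw [h0, zero_mul]
  unfold QF
  rw [← integral_sub (hi φ h) (hi ψ h')]
  refine integral_congr_ae (Eventually.of_forall fun z => ?_)
  show (φ z - ψ z) * conj (Gp G χ ch ζ R y z) = φ z * conj (Gp G χ ch ζ R y z) - ψ z * conj (Gp G χ ch ζ R y z)
  ring

/-! ### norms on the window -/

omit [MulAction Γ (V d)] in
theorem ALB0_int {G : V d → V d →L[ℝ] V d} {r0 R : ℝ} (hM : AUMD_M (Γ := Γ) G r0 R) {v : YS Γ d → ℂ} (hv : FP (⊥ : Subgroup Γ) univ v) :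
    Integrable (fun y => ‖v y‖ ^ 2) ((mY Γ d).restrict (DT d univ ∩ GW Γ G r0 2 R)) := by
  obtain ⟨b, hb⟩ := hv.bdd
  obtain ⟨S, hS⟩ := hv.supp
  have hms : MeasurableSet {y : YS Γ d | y ∈ GW Γ G r0 2 R ∧ y.1 ∈ S} := hM.gm.inter (AUMD_fst S)
  have hint : Integrable ({y : YS Γ d | y ∈ GW Γ G r0 2 R ∧ y.1 ∈ S}.indicator fun _ => b ^ 2) (mY Γ d) :=
    (integrable_indicator_iff hms).2 (integrableOn_const (AUMD_v1 hM S).ne)
  have hDT : (DT d (univ : Set Γ) : Set (YS Γ d)) = univ := Set.eq_univ_of_forall fun y => mem_univ y.1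
  rw [hDT, univ_inter]
  refine (hint.mono_measure Measure.restrict_le_self).mono' ((hv.meas.norm.pow_const 2).aestronglyMeasurable) ?_
  rw [ae_restrict_iff' hM.gm]
  refine Eventually.of_forall fun y hy => ?_
  rw [Real.norm_of_nonneg (by positivity)]
  by_cases h0 : v y = 0
  · rw [h0, norm_zero]
    have h1 : (0 : ℝ) ≤ {y : YS Γ d | y ∈ GW Γ G r0 2 R ∧ y.1 ∈ S}.indicator (fun _ => b ^ 2) y :=
      indicator_nonneg (fun _ _ => sq_nonneg b) y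
    simpa using h1
  · rw [indicator_of_mem (show y ∈ {y : YS Γ d | y ∈ GW Γ G r0 2 R ∧ y.1 ∈ S} from ⟨hy, hS y (mem_univ _) h0⟩)]
    exact pow_le_pow_left₀ (norm_nonneg _) (hb y) 2

theorem ALB0_sq3 (a b c : ℂ) : ‖a + b + c‖ ^ 2 ≤ 3 * (‖a‖ ^ 2 + ‖b‖ ^ 2 + ‖c‖ ^ 2) := by
  have h1 : ‖a + b + c‖ ≤ ‖a‖ + ‖b‖ + ‖c‖ := norm_add₃_le
  have h2 : ‖a + b + c‖ ^ 2 ≤ (‖a‖ + ‖b‖ + ‖c‖) ^ 2 := pow_le_pow_left₀ (norm_nonneg _) h1 2
  nlinarith [sq_nonneg (‖a‖ - ‖b‖), sq_nonneg (‖b‖ - ‖c‖), sq_nonneg (‖a‖ - ‖c‖)]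

theorem ALB0_tri {X : Type} [MeasurableSpace X] {μ : Measure X} {v u1 u2 u3 : X → ℂ} (h : ∀ᵐ x ∂μ, v x = u1 x + u2 x + u3 x)
    (h1 : Integrable (fun x => ‖u1 x‖ ^ 2) μ) (h2 : Integrable (fun x => ‖u2 x‖ ^ 2) μ) (h3 : Integrable (fun x => ‖u3 x‖ ^ 2) μ) :
    ∫ x, ‖v x‖ ^ 2 ∂μ ≤ 3 * (∫ x, ‖u1 x‖ ^ 2 ∂μ + ∫ x, ‖u2 x‖ ^ 2 ∂μ + ∫ x, ‖u3 x‖ ^ 2 ∂μ) := by
  have h12 : Integrable (fun x => ‖u1 x‖ ^ 2 + ‖u2 x‖ ^ 2) μ := h1.add h2
  have h123 : Integrable (fun x => ‖u1 x‖ ^ 2 + ‖u2 x‖ ^ 2 + ‖u3 x‖ ^ 2) μ := h12.add h3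
  rw [← integral_add h1 h2, ← integral_add h12 h3, ← integral_const_mul]
  refine integral_mono_of_nonneg (Eventually.of_forall fun x => by positivity) (h123.const_mul 3) ?_
  filter_upwards [h] with x hx
  rw [hx]
  exact ALB0_sq3 _ _ _

theorem ALB0_adm {C C' : ℝ} {A : Par} (h : C' ≤ C) (hA : Adm C A) (h1 : 0 < A.z1) (h2 : 0 < A.z2) : Adm C' A :=
  ⟨hA.e2, (mul_le_mul_of_nonneg_right h hA.e2.le).trans hA.e2', hA.z, (mul_le_mul_of_nonneg_right h hA.z.le).trans hA.z1,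
    (mul_le_mul_of_nonneg_right h h1.le).trans hA.z2, (mul_le_mul_of_nonneg_right h h2.le).trans hA.up⟩

omit [Group Γ] [MulAction Γ (V d)] in
theorem ALB0_fst (S : Set Γ) : MeasurableSet {y : YS Γ d | y.1 ∈ S} := by
  let _ : MeasurableSpace Γ := ⊤
  have h : Measurable (Prod.fst : Γ × P d → Γ) := measurable_fst
  exact h (show MeasurableSet S from trivial)

omit [MulAction Γ (V d)] in
/-- a function which is small on the window and supported on a set of finite measure -/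
theorem ALB0_n1 {G : V d → V d →L[ℝ] V d} {r0 R : ℝ} (hM : AUMD_M (Γ := Γ) G r0 R) {u : YS Γ d → ℂ} (hu : Measurable u) {N : Set (YS Γ d)}
    (hN : MeasurableSet N) {C6 : ℝ} (hC6 : 0 ≤ C6) (hN' : mY Γ d N ≤ ENNReal.ofReal C6) {s : ℝ} (hs : 0 ≤ s)
    (h : ∀ x ∈ GW Γ G r0 2 R, ‖u x‖ ^ 2 ≤ N.indicator (fun _ => s) x) :
    Integrable (fun x => ‖u x‖ ^ 2) ((mY Γ d).restrict (DT d univ ∩ GW Γ G r0 2 R)) ∧ nP G r0 univ 2 R u ≤ C6 * s := by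
  have hDT : (DT d (univ : Set Γ) : Set (YS Γ d)) = univ := Set.eq_univ_of_forall fun y => mem_univ y.1
  have hfin : mY Γ d N < ⊤ := hN'.trans_lt ENNReal.ofReal_lt_top
  have hint : Integrable (N.indicator fun _ => s) (mY Γ d) := (integrable_indicator_iff hN).2 (integrableOn_const hfin.ne)
  have hae : ∀ᵐ x ∂(mY Γ d).restrict (DT d univ ∩ GW Γ G r0 2 R), ‖u x‖ ^ 2 ≤ N.indicator (fun _ => s) x := by
    rw [hDT, univ_inter, ae_restrict_iff' hM.gm]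
    exact Eventually.of_forall h
  have hint' := hint.mono_measure (Measure.restrict_le_self (μ := mY Γ d) (s := DT d (univ : Set Γ) ∩ GW Γ G r0 2 R))
  have hi : Integrable (fun x => ‖u x‖ ^ 2) ((mY Γ d).restrict (DT d univ ∩ GW Γ G r0 2 R)) := by
    refine hint'.mono' ((hu.norm.pow_const 2).aestronglyMeasurable) ?_
    filter_upwards [hae] with x hx
    rw [Real.norm_of_nonneg (by positivity)]
    exact hx
  refine ⟨hi, ?_⟩
  unfold nP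
  refine (integral_mono_ae hi hint' hae).trans ?_
  refine (setIntegral_le_integral hint (Eventually.of_forall fun x => indicator_nonneg (fun _ _ => hs) x)).trans ?_
  rw [integral_indicator_const _ hN, smul_eq_mul]
  refine mul_le_mul_of_nonneg_right ?_ hs
  exact ENNReal.toReal_le_of_le_ofReal hC6 hN'

/-- the size of the sum of the three errors -/
theorem ALB0_fin (d : ℕ) (C6 C5 C3 ζ2 η C K1 R : ℝ) (hR : 1 ≤ R) (h6 : 1 ≤ C6) (h5 : 1 ≤ C5) (hζ : 0 ≤ ζ2) (_hη0 : 0 ≤ η) (hη : η ≤ 1 / 4) (hC3 : 1 ≤ C3) (hC : C3 ≤ C)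
    (hK1 : K1 = 3 * (C6 + 2 * C5 + 2)) (hK : K1 ≤ R ^ (1 / 2 : ℝ)) (n1 n2 n3 : ℝ) (h1 : n1 ≤ C6 * R ^ (-2 : ℝ))
    (h2 : n2 ≤ 2 * (R ^ (3 * (d : ℝ) / 2) * (C5 * ((R ^ (-((d : ℝ) + 1))) ^ 2 * R ^ (-((d : ℝ) / 2) + d * η)))))
    (h3 : n3 ≤ 2 * (R ^ (3 * (d : ℝ) / 2) * R ^ (-((d : ℝ) / 2) - 1 + C3 * ζ2))) :
    3 * (n1 + n2 + n3) ≤ R ^ ((d : ℝ) - 1 / 2 + C * ζ2) := by
  have hR0 : 0 < R := by linarith
  have hd : (0 : ℝ) ≤ (d : ℝ) := Nat.cast_nonneg d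
  have hC3ζ : 0 ≤ C3 * ζ2 := mul_nonneg (by linarith) hζ
  have hCζ : C3 * ζ2 ≤ C * ζ2 := mul_le_mul_of_nonneg_right hC hζ
  obtain ⟨E, hE⟩ : ∃ E : ℝ, E = R ^ ((d : ℝ) - 1 + C3 * ζ2) := ⟨_, rfl⟩
  have hE0 : 0 < E := by rw [hE]; exact Real.rpow_pos_of_pos hR0 _
  have a1 : R ^ (-2 : ℝ) ≤ E := by
    rw [hE]; exact Real.rpow_le_rpow_of_exponent_le hR (by linarith)
  have a2 : R ^ (3 * (d : ℝ) / 2) * (C5 * ((R ^ (-((d : ℝ) + 1))) ^ 2 * R ^ (-((d : ℝ) / 2) + d * η))) ≤ C5 * E := by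
    have e1 : (R ^ (-((d : ℝ) + 1))) ^ 2 = R ^ (-((d : ℝ) + 1) * 2) := by
      rw [← Real.rpow_natCast, ← Real.rpow_mul hR0.le]
      norm_num
    have e2 : R ^ (3 * (d : ℝ) / 2) * (C5 * ((R ^ (-((d : ℝ) + 1))) ^ 2 * R ^ (-((d : ℝ) / 2) + d * η))) =
        C5 * R ^ (3 * (d : ℝ) / 2 + (-((d : ℝ) + 1) * 2 + (-((d : ℝ) / 2) + d * η))) := by
      rw [e1, Real.rpow_add hR0 (3 * (d : ℝ) / 2), Real.rpow_add hR0 (-((d : ℝ) + 1) * 2)]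
      ring
    rw [e2, hE]
    refine mul_le_mul_of_nonneg_left (Real.rpow_le_rpow_of_exponent_le hR ?_) (by linarith)
    have e3 : (d : ℝ) * η ≤ d * (1 / 4) := mul_le_mul_of_nonneg_left hη hd
    nlinarith
  have a3 : R ^ (3 * (d : ℝ) / 2) * R ^ (-((d : ℝ) / 2) - 1 + C3 * ζ2) = E := by
    rw [← Real.rpow_add hR0, hE]
    congr 1
    ring
  have a4 : R ^ (1 / 2 : ℝ) * E ≤ R ^ ((d : ℝ) - 1 / 2 + C * ζ2) := by
    rw [hE, ← Real.rpow_add hR0]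
    exact Real.rpow_le_rpow_of_exponent_le hR (by linarith)
  rw [a3] at h3
  have b1 : n1 ≤ C6 * E := h1.trans (mul_le_mul_of_nonneg_left a1 (by linarith))
  have b2 : n2 ≤ 2 * (C5 * E) := h2.trans (mul_le_mul_of_nonneg_left a2 (by norm_num))
  have b3 : 3 * (n1 + n2 + n3) ≤ K1 * E := by
    rw [hK1]
    nlinarith
  exact (b3.trans (mul_le_mul_of_nonneg_right hK hE0.le)).trans a4

theorem ALB0_ev (K1 : ℝ) : ∃ R0 : ℝ, 1 ≤ R0 ∧ ∀ R, R0 ≤ R → K1 ≤ R ^ (1 / 2 : ℝ) ∧ 7 / 4 * R ^ (-(1 / 4) : ℝ) ≤ 1 / 4 := by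
  have h1 : Tendsto (fun R : ℝ => R ^ (1 / 2 : ℝ)) atTop atTop := tendsto_rpow_atTop (by norm_num)
  have h2 : Tendsto (fun R : ℝ => R ^ (-(1 / 4) : ℝ)) atTop (𝓝 0) := tendsto_rpow_neg_atTop (by norm_num)
  have h3 := h2.eventually_lt_const (u := 1 / 7) (by norm_num)
  obtain ⟨R0, hR0⟩ := eventually_atTop.1 (h3.and (h1.eventually_ge_atTop K1))
  refine ⟨max R0 1, le_max_right _ _, fun R hR => ?_⟩
  obtain ⟨a1, a2⟩ := hR0 R ((le_max_left _ _).trans hR)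
  exact ⟨a2, by linarith⟩

/-- **Row ALB0** -/
theorem ALB0_proof (hAULD : AULD_stmt) (hAUMD : AUMD_stmt) (hAQAD : AQAD_stmt) (hABMP : ABMP_stmt) (hALPN : ALPN_stmt) (hALCC : ALCC_stmt)
    (hALSY : ALSY_stmt) (hABRD : ABRD_stmt) (hAVOL : AVOL_stmt) (hADMD : ADMD_stmt) (hAMVI : AMVI_stmt) (hACNF : ACNF_stmt)
    (hAQSD : AQSD_stmt) : ALB0_stmt := by
  classical
  intro d Γ _ _ K k B r0 χ hK hPU
  have hr0 := hPU.one
  obtain ⟨C1, hC1, hul⟩ := hAULD d Γ K k B r0 χ hK hPU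
  obtain ⟨CM, hCM, hum⟩ := hAUMD d Γ K k B r0 χ hK hPU
  obtain ⟨C2, hC2, hbp⟩ := hABMP d Γ K k B r0 hK
  obtain ⟨C3, hC3, hcc⟩ := hALCC d Γ K k B (r0 + 1) hK (by linarith)
  obtain ⟨C4, hC4, hcf⟩ := hACNF d Γ K k B r0 1 hK
  obtain ⟨C5, hC5, hpn⟩ := hALPN d Γ K k B C4
  obtain ⟨C6, hC6, hvl⟩ := hAVOL d Γ K k B r0 C1 hK
  obtain ⟨C, hC⟩ : ∃ C, C = C1 + CM + 4 * C2 + C3 + 8 := ⟨_, rfl⟩
  refine ⟨C, by rw [hC]; linarith, ?_⟩
  intro ch A ζ2 hch hA hz1ζ hCζ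
  have hCp : 0 < C := by rw [hC]; linarith
  have hz := hA.z
  have hz1 : A.z ≤ A.z1 := by
    have h1 : 1 * A.z ≤ C * A.z := mul_le_mul_of_nonneg_right (by rw [hC]; linarith) hz.le
    have := hA.z1
    linarith
  have hz10 : 0 < A.z1 := lt_of_lt_of_le hz hz1
  have hz12 : A.z1 ≤ A.z2 := by
    have h1 : 1 * A.z1 ≤ C * A.z1 := mul_le_mul_of_nonneg_right (by rw [hC]; linarith) hz10.le
    have := hA.z2
    linarith
  have hz20 : 0 < A.z2 := lt_of_lt_of_le hz10 hz12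
  have hζ20 : 0 < ζ2 := lt_of_lt_of_le hz10 hz1ζ
  have hmul : ∀ c : ℝ, c ≤ C → c * ζ2 ≤ 1 := fun c hc => (mul_le_mul_of_nonneg_right hc hζ20.le).trans hCζ
  have hmul1 : ∀ c : ℝ, 0 ≤ c → c ≤ C → c * A.z1 ≤ 1 := fun c hc0 hc => (mul_le_mul_of_nonneg_left hz1ζ hc0).trans (hmul c hc)
  have hζ8 : 8 * ζ2 ≤ 1 := hmul 8 (by rw [hC]; linarith)
  have h4C2 : 4 * C2 * ζ2 ≤ 1 := hmul (4 * C2) (by rw [hC]; linarith)
  have hAM : Adm CM A := ALB0_adm (by rw [hC]; linarith) hA hz10 hz20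
  have hC1z : C1 * A.z1 ≤ A.z2 := (mul_le_mul_of_nonneg_right (by rw [hC]; linarith) hz10.le).trans hA.z2
  obtain ⟨R1, hR1, hul'⟩ := hul ch A.z A.z1 1 hch hz hz1 (hmul1 C1 (by linarith) (by rw [hC]; linarith))
  obtain ⟨R2, hR2, hum'⟩ := hum ch A hch hAM
  obtain ⟨R3, hR3, hbp'⟩ := hbp ch 0 0 A.z A.z1 ζ2 ((d : ℝ) + 1) hch
    ⟨le_rfl, hz, hz1, by rw [mul_zero]; exact hz10.le, hmul1 C2 (by linarith) (by rw [hC]; linarith)⟩ hz1ζ (hmul C2 (by rw [hC]; linarith))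
  obtain ⟨R4, hR4, hcc'⟩ := hcc ch 0 ζ2 hch le_rfl hζ20 (by rw [mul_zero]; exact hζ20.le) (hmul C3 (by rw [hC]; linarith))
  obtain ⟨R5, hR5, hqa⟩ := hAQAD d Γ K k B r0 χ ch A.z hK hPU hch hz (by linarith)
  obtain ⟨R6, hR6, hbr⟩ := hABRD d ch A.z hch hz (by linarith)
  obtain ⟨R7, hR7, hqs⟩ := hAQSD d Γ K k B r0 χ ch A.z hK hPU hch hz (by linarith)
  obtain ⟨K1, hK1⟩ : ∃ K1, K1 = 3 * (C6 + 2 * C5 + 2) := ⟨_, rfl⟩
  obtain ⟨R8, hR8, hev⟩ := ALB0_ev K1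
  obtain ⟨-, -, -, -, hLag⟩ := hALSY d 1
  refine ⟨R1 + R2 + R3 + R4 + R5 + R6 + R7 + R8, by linarith, ?_⟩
  intro R G Φ y κ hR hOK hy hfch
  have hRR1 : R1 ≤ R := by linarith
  have hRR2 : R2 ≤ R := by linarith
  have hRR3 : R3 ≤ R := by linarith
  have hRR4 : R4 ≤ R := by linarith
  have hRR5 : R5 ≤ R := by linarith
  have hRR6 : R6 ≤ R := by linarith
  have hRR7 : R7 ≤ R := by linarith
  have hRR8 : R8 ≤ R := by linarith
  have h1R : 1 ≤ R := hR1.trans hRR1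
  have hRp : 0 < R := by linarith
  obtain ⟨hKR, hR4'⟩ := hev R hRR8
  obtain ⟨hmv1, hmv2, hmv3, -, hmv5, hmv6, -⟩ := hAMVI d Γ K k B G hK hOK.cls
  obtain ⟨hd1, hd2, -, -, hd5, -⟩ := hADMD d Γ K k B G hK hOK.cls
  have hM : AUMD_M (Γ := Γ) G r0 R := ⟨hmv1, hd1, hd2, (hd5 r0 2 R).1, (hd5 r0 2 R).2.1, (hd5 r0 2 R).2.2⟩
  have hDm : Dm (⊥ : Subgroup Γ) (univ : Set (V d)) (univ : Set Γ) := Or.inr ⟨rfl, rfl, rfl⟩
  obtain ⟨hqa1, -⟩ := hqa R G hRR5 hOK.cls ⊥ univ univ hDm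
  obtain ⟨-, -, -, -, -, -, -, -, hcR0, hcR, -⟩ := hbr R hRR6
  obtain ⟨hg1, -, -, -, -, -, hqs'⟩ := hqs R G hRR7 hOK.cls
  obtain ⟨hqsF, -, -⟩ := hqs' ⊥ univ univ hDm
  obtain ⟨hKY, -, -, -, -, -⟩ := hum' R G Φ hRR2 hOK
  have hc : ∀ γ : Γ, Continuous fun x : V d => γ • x := fun γ => (hK.smooth γ).continuous
  -- the index
  have hy1 : ‖y.2.1‖ ≤ r0 := hy.1
  have hyE : |Ep G y.2| ≤ 1 / 4 := hy.2.trans hR4'
  have hy2 : y ∈ GW Γ G r0 2 R := by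
    refine ⟨hy1, hy.2.trans ?_⟩
    exact mul_le_mul_of_nonneg_right (by norm_num) (Real.rpow_nonneg hRp.le _)
  have hHam : Ham G y.2 ≤ 2 := by
    have h1 := (abs_le.1 hyE).2
    have h2 : Ep G y.2 = Ham G y.2 - 1 / 2 := rfl
    linarith
  have hLag0 : Lag (R ^ (0 : ℝ)) (1 : MC d) (Complex.I • 1) := by rw [Real.rpow_zero]; exact hLag
  have hq : ‖(Φ 1 y.2).1‖ ≤ C4 := (hcf G Φ hOK y.2 1 hy1 hHam (by norm_num)).1
  -- the beams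
  obtain ⟨f0, hf0⟩ : ∃ f0, f0 = bt G Φ ch A.z1 R 1 (Complex.I • 1) y.2 1 := ⟨_, rfl⟩
  obtain ⟨f2, hf2⟩ : ∃ f2, f2 = bt G Φ ch ζ2 R 1 (Complex.I • 1) y.2 1 := ⟨_, rfl⟩
  obtain ⟨hP1, -, -, -, hP5, -⟩ := hbp' R 1 G Φ y.2 1 (Complex.I • 1) hRR3 hOK hy1 hyE (by norm_num) hLag0
  have hηz : 0 < C2 * A.z1 := mul_pos (by linarith) hz10
  have hηζ : 0 < C2 * ζ2 := mul_pos (by linarith) hζ20
  have hηz4 : C2 * A.z1 ≤ 1 / 4 := by
    have := mul_le_mul_of_nonneg_left hz1ζ (show (0 : ℝ) ≤ C2 by linarith)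
    linarith
  obtain ⟨-, hF0, -, -⟩ := hpn G hK hOK.cls 0 (C2 * A.z1) (R ^ (C2 * A.z1)) R (Φ 1 y.2) _ y.1 hq h1R hηz hηz4 (Real.rpow_nonneg hRp.le _) hP1
  obtain ⟨-, hFD, -, hND⟩ := hpn G hK hOK.cls 0 (C2 * ζ2) (R ^ (-((d : ℝ) + 1))) R (Φ 1 y.2) _ y.1 hq h1R hηζ (by linarith) (Real.rpow_nonneg hRp.le _) hP5
  rw [← hf0] at hF0
  rw [← hf0, ← hf2] at hFD hND
  obtain ⟨a, ha1, ha2⟩ := hcc' R G Φ y.1 κ y.2 1 (Complex.I • 1) hRR4 hOK (by linarith) hyE hfch hLag0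
  rw [← hf2] at ha2
  have hcast : ((1 : ℕ) : ℝ) = 1 := Nat.cast_one
  refine ⟨a, ?_, ?_⟩
  · unfold Nam
    rw [hcast, ha1, Matrix.det_one, norm_one]
  -- the functions
  obtain ⟨c, hcdef⟩ : ∃ c : ℂ, c = ((χ y.2.1 * cR d ch A.z R : ℝ) : ℂ) := ⟨_, rfl⟩
  have hcn : ‖c‖ ^ 2 ≤ R ^ (3 * (d : ℝ) / 2) := by
    have h1 : ‖c‖ ≤ R ^ (3 * (d : ℝ) / 4) := by
      rw [hcdef, Complex.norm_real, Real.norm_of_nonneg (mul_nonneg (hPU.bd _).1 hcR0.le)]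
      calc χ y.2.1 * cR d ch A.z R ≤ 1 * cR d ch A.z R := mul_le_mul_of_nonneg_right (hPU.bd _).2 hcR0.le
        _ ≤ R ^ (3 * (d : ℝ) / 4) := by rw [one_mul]; exact hcR
    have h2 : ‖c‖ ^ 2 ≤ (R ^ (3 * (d : ℝ) / 4)) ^ 2 := pow_le_pow_left₀ (norm_nonneg _) h1 2
    have h3 : (R ^ (3 * (d : ℝ) / 4)) ^ 2 = R ^ (3 * (d : ℝ) / 2) := by
      rw [← Real.rpow_natCast, ← Real.rpow_mul hRp.le]
      congr 1
      push_cast
      ring
    rwa [h3] at h2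
  obtain ⟨g, hgdef⟩ : ∃ g : V d → ℂ, g = fun z => bm G ch ζ2 R (Pf (fch Φ κ 1) y.2 1 (Complex.I • 1) * (Yf (fch Φ κ 1) y.2 1 (Complex.I • 1))⁻¹) (fch Φ κ 1 y.2) ((y.1 * κ)⁻¹ • z) := ⟨_, rfl⟩
  have hFg : FH (⊥ : Subgroup Γ) univ g := by
    rw [hgdef]
    exact ALB0_bm hch hmv2.continuous hmv3 hc h1R (by linarith) _ _ (y.1 * κ)
  obtain ⟨ψ, hψ⟩ : ∃ ψ : V d → ℂ, ψ = fun z => c * f0 (y.1⁻¹ • z) := ⟨_, rfl⟩
  obtain ⟨ψ2, hψ2⟩ : ∃ ψ2 : V d → ℂ, ψ2 = fun z => c * f2 (y.1⁻¹ • z) := ⟨_, rfl⟩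
  obtain ⟨ψ3, hψ3⟩ : ∃ ψ3 : V d → ℂ, ψ3 = fun z => c * (a * g z) := ⟨_, rfl⟩
  have hF2 : FH (⊥ : Subgroup Γ) univ (fun z => f2 (y.1⁻¹ • z)) := by
    have h1 := ALB0_add hF0 hFD
    have h2 : (fun z => f0 (y.1⁻¹ • z) + (f2 (y.1⁻¹ • z) - f0 (y.1⁻¹ • z))) = fun z => f2 (y.1⁻¹ • z) := by
      funext z
      ring
    rwa [h2] at h1
  have hFψ : FH (⊥ : Subgroup Γ) univ ψ := by rw [hψ]; exact ALB0_smul c hF0
  have hFψ2 : FH (⊥ : Subgroup Γ) univ ψ2 := by rw [hψ2]; exact ALB0_smul c hF2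
  have hFψ3 : FH (⊥ : Subgroup Γ) univ ψ3 := by rw [hψ3]; exact ALB0_smul c (ALB0_smul a hFg)
  have hLB : LB G Φ χ ch A.z ζ2 R y 1 κ a = ψ3 := by
    funext z
    unfold LB
    rw [hcast, ← hcdef, hψ3, hgdef]
    show c * a * _ = c * (a * _)
    ring
  have hpsi : psi G Φ χ ch A.z A.z1 R 1 y = ψ := by
    funext z
    unfold psi
    rw [← hcdef, ← hf0, hψ]
  rw [hLB]
  -- the three parts
  have hs1 := ALB0_sub hFψ hFψ2
  have hs2 := ALB0_sub hFψ2 hFψ3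
  have hsum : ∀ x : YS Γ d, conj (us G Φ r0 χ ch A R y x) - QF G χ ch A.z R ψ3 x = (conj (us G Φ r0 χ ch A R y x) - QF G χ ch A.z R ψ x) +
      QF G χ ch A.z R (fun z => ψ z - ψ2 z) x + QF G χ ch A.z R (fun z => ψ2 z - ψ3 z) x := by
    intro x
    rw [ALB0_QF hmv5 hg1 hFψ hFψ2, ALB0_QF hmv5 hg1 hFψ2 hFψ3]
    ring
  have hI : ∀ x : YS Γ d, QF G χ ch A.z R ψ x = conj (∫ z, conj (psi G Φ χ ch A.z A.z1 R 1 y z) * Gp G χ ch A.z R x z ∂mv G) := by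
    intro x
    rw [← integral_conj, hpsi]
    unfold QF
    refine integral_congr_ae (Eventually.of_forall fun z => ?_)
    show ψ z * conj (Gp G χ ch A.z R x z) = conj (conj (ψ z) * Gp G χ ch A.z R x z)
    rw [map_mul, Complex.conj_conj]
  have hR2 : (R ^ (-(1 : ℝ))) ^ 2 = R ^ (-2 : ℝ) := by
    rw [← Real.rpow_natCast, ← Real.rpow_mul hRp.le]
    norm_num
  obtain ⟨N, hN⟩ : ∃ N : Set (YS Γ d), N = {x | x ∈ GW Γ G r0 2 R ∧ y.1⁻¹ * x.1 ∈ SG Γ d C1} := ⟨_, rfl⟩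
  have hNm : MeasurableSet N := by
    rw [hN]
    exact hM.gm.inter (ALB0_fst {γ : Γ | y.1⁻¹ * γ ∈ SG Γ d C1})
  have hNv : mY Γ d N ≤ ENNReal.ofReal C6 := by
    rw [hN]
    exact (hvl R G Φ h1R hOK y y.2 0 1 one_pos).2.1
  have hu1m : Measurable fun x : YS Γ d => conj (us G Φ r0 χ ch A R y x) - QF G χ ch A.z R ψ x :=
    (Complex.continuous_conj.measurable.comp (hKY.meas.comp measurable_prodMk_left)).sub (hqsF ψ hFψ).1.meas
  obtain ⟨hi1, hn1⟩ := ALB0_n1 hM hu1m hNm (by linarith : (0 : ℝ) ≤ C6) hNv (Real.rpow_nonneg hRp.le (-2 : ℝ)) (by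
    intro x hx
    obtain ⟨-, b2, b3⟩ := hul' R 1 G Φ y x hRR1 hOK (by norm_num) hy2 hx
    by_cases hst : St G Φ r0 (A.r R) R y x
    · have h1 : us G Φ r0 χ ch A R y x = ∫ z, conj (psi G Φ χ ch A.z A.z1 R 1 y z) * Gp G χ ch A.z R x z ∂mv G := by
        unfold us
        rw [if_pos hst]
      rw [h1, ← hI, sub_self, norm_zero]
      have h2 : (0 : ℝ) ≤ N.indicator (fun _ => R ^ (-2 : ℝ)) x := indicator_nonneg (fun _ _ => Real.rpow_nonneg hRp.le _) x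
      simpa using h2
    · have h1 : us G Φ r0 χ ch A R y x = 0 := by
        unfold us
        rw [if_neg hst]
      rw [h1, map_zero, zero_sub, norm_neg, hI, RCLike.norm_conj]
      have hdist : ¬dist (Φ 1 y.2) (rel y x) < R ^ (-(1 / 2) + C1 * A.z1) := by
        intro hlt
        apply hst
        refine ⟨hy2, hx, hlt.trans_le ?_⟩
        exact Real.rpow_le_rpow_of_exponent_le h1R (by linarith)
      have h2 := b3 hdist
      by_cases h0 : (∫ z, conj (psi G Φ χ ch A.z A.z1 R 1 y z) * Gp G χ ch A.z R x z ∂mv G) = 0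
      · rw [h0, norm_zero]
        have h2 : (0 : ℝ) ≤ N.indicator (fun _ => R ^ (-2 : ℝ)) x := indicator_nonneg (fun _ _ => Real.rpow_nonneg hRp.le _) x
        simpa using h2
      · rw [indicator_of_mem (show x ∈ N by rw [hN]; exact ⟨hx, b2 h0⟩), ← hR2]
        exact pow_le_pow_left₀ (norm_nonneg _) h2 2)
  have hle2 : 1 + R ^ (-(1 / 4) : ℝ) ≤ 2 := by
    have := Real.rpow_le_one_of_one_le_of_nonpos h1R (show (-(1 / 4) : ℝ) ≤ 0 by norm_num)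
    linarith
  have hnn0 : ∀ φ : V d → ℂ, 0 ≤ nn G univ φ := fun φ => integral_nonneg fun z => by positivity
  have hn2 : nP G r0 univ 2 R (QF (Γ := Γ) G χ ch A.z R (fun z => ψ z - ψ2 z)) ≤ 2 * (R ^ (3 * (d : ℝ) / 2) *
      (C5 * ((R ^ (-((d : ℝ) + 1))) ^ 2 * R ^ (-((d : ℝ) / 2) + d * (C2 * ζ2))))) := by
    refine (hqa1 _ hs1).1.trans ((mul_le_mul_of_nonneg_right hle2 (hnn0 _)).trans (mul_le_mul_of_nonneg_left ?_ (by norm_num)))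
    have h1 : (fun z => ψ z - ψ2 z) = fun z => -c * (f2 (y.1⁻¹ • z) - f0 (y.1⁻¹ • z)) := by
      funext z
      rw [hψ, hψ2]
      ring
    rw [h1, ALB0_nn, norm_neg]
    exact mul_le_mul hcn hND (hnn0 _) (Real.rpow_nonneg hRp.le _)
  have hn3 : nP G r0 univ 2 R (QF (Γ := Γ) G χ ch A.z R (fun z => ψ2 z - ψ3 z)) ≤ 2 * (R ^ (3 * (d : ℝ) / 2) *
      R ^ (-((d : ℝ) / 2) - 1 + C3 * ζ2)) := by
    refine (hqa1 _ hs2).1.trans ((mul_le_mul_of_nonneg_right hle2 (hnn0 _)).trans (mul_le_mul_of_nonneg_left ?_ (by norm_num)))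
    have h1 : (fun z => ψ2 z - ψ3 z) = fun z => c * (f2 (y.1⁻¹ • z) - a * g z) := by
      funext z
      rw [hψ2, hψ3]
      ring
    rw [h1, ALB0_nn]
    refine mul_le_mul hcn ?_ (hnn0 _) (Real.rpow_nonneg hRp.le _)
    rw [hgdef]
    exact ha2
  have htri := ALB0_tri (μ := (mY Γ d).restrict (DT d univ ∩ GW Γ G r0 2 R)) (Eventually.of_forall hsum) hi1
    (ALB0_int hM (hqsF _ hs1).1) (ALB0_int hM (hqsF _ hs2).1)
  refine le_trans htri ?_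
  exact ALB0_fin d C6 C5 C3 ζ2 (C2 * ζ2) C K1 R h1R hC6 hC5 hζ20.le hηζ.le (by linarith) hC3 (by rw [hC]; linarith) hK1 hKR _ _ _ hn1 hn2 hn3

end

end Pool.Agent.VD

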