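import Pool.Agent.helper79.VD.AUMDa

/-!
# Row `vd:AUMD` (MP_07c750_an), part 2: the unit step kernel
-/

set_option autoImplicit false

open scoped ContDiff Topology InnerProductSpace ComplexConjugate ENNReal
open MeasureTheory Filter Set

namespace Pool.Agent.VD

open Pool.Agent.VQ (CH cmZ)

noncomputable section

/-- measurability on pairs of indices -/
theorem AUMD_m2 {Γ : Type} {d : ℕ} [Countable Γ] {f : YS Γ d × YS Γ d → ℂ}
    (h : ∀ γ γ' : Γ, Measurable fun x : P d × P d => f (((γ, x.1) : YS Γ d), ((γ', x.2) : YS Γ d))) : Measurable f := by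
  let _ : MeasurableSpace Γ := ⊤
  have : MeasurableSingletonClass Γ := ⟨fun _ => trivial⟩
  have hg : Measurable fun y : (P d × P d) × (Γ × Γ) => f (((y.2.1, y.1.1) : YS Γ d), ((y.2.2, y.1.2) : YS Γ d)) :=
    measurable_from_prod_countable_left fun c => h c.1 c.2
  have he : Measurable fun y : (Γ × P d) × (Γ × P d) => (((y.1.2, y.2.2), (y.1.1, y.2.1)) : (P d × P d) × (Γ × Γ)) :=
    (measurable_fst.snd.prodMk measurable_snd.snd).prodMk (measurable_fst.fst.prodMk measurable_snd.fst)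
  exact hg.comp he

theorem AUMD_in {Γ : Type} {d : ℕ} (γ : Γ) : Measurable (β := YS Γ d) fun p : P d => (γ, p) := by
  let _ : MeasurableSpace Γ := ⊤
  have h : Measurable (fun p : P d => (γ, p)) := measurable_prodMk_left
  exact h

theorem AUMD_psic {Γ : Type} {d : ℕ} [Group Γ] [MulAction Γ (V d)] (G : V d → V d →L[ℝ] V d) (Φ : ℝ → P d → P d) (χ : V d → ℝ)
    (ch : ℝ → ℝ) (ζ ζ1 R t : ℝ) (hχ : Continuous χ) (hc : ∀ γ : Γ, Continuous fun x : V d => γ • x)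
    (hb : Continuous (fun x : (P d × ℝ) × V d => bt G Φ ch ζ1 R 1 (Complex.I • 1) x.1.1 x.1.2 x.2)) (γ : Γ) :
    Continuous fun x : P d × V d => psi G Φ χ ch ζ ζ1 R t ((γ, x.1) : YS Γ d) x.2 := by
  obtain ⟨F, hF⟩ : ∃ F : (P d × ℝ) × V d → ℂ, F = fun x => bt G Φ ch ζ1 R 1 (Complex.I • 1) x.1.1 x.1.2 x.2 := ⟨_, rfl⟩
  rw [← hF] at hb
  have h3 : Continuous fun x : P d × V d => (((x.1, t), γ⁻¹ • x.2) : (P d × ℝ) × V d) :=
    (continuous_fst.prodMk continuous_const).prodMk ((hc γ⁻¹).comp continuous_snd)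
  have h2 : Continuous fun x : P d × V d => F ((x.1, t), γ⁻¹ • x.2) := hb.comp h3
  have h1 : Continuous fun x : P d × V d => ((χ x.1.1 * cR d ch ζ R : ℝ) : ℂ) :=
    Complex.continuous_ofReal.comp ((hχ.comp continuous_fst.fst).mul continuous_const)
  have h4 := h1.mul h2
  rw [hF] at h4
  exact h4

theorem AUMD_psii {Γ : Type} {d : ℕ} [Group Γ] [MulAction Γ (V d)] (G : V d → V d →L[ℝ] V d) (Φ : ℝ → P d → P d) (χ : V d → ℝ)
    (ch : ℝ → ℝ) (ζ ζ1 R t : ℝ) (γ : Γ) (y : YS Γ d) (z : V d) :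
    psi G Φ χ ch ζ ζ1 R t (γ • y) (γ • z) = psi G Φ χ ch ζ ζ1 R t y z := by
  have e1 : (γ • y).2 = y.2 := rfl
  have e2 : (γ • y).1⁻¹ • γ • z = y.1⁻¹ • z := by
    show (γ * y.1)⁻¹ • γ • z = y.1⁻¹ • z
    rw [mul_inv_rev, mul_smul, inv_smul_smul]
  unfold psi
  rw [e1, e2]

variable {Γ : Type} {d : ℕ} [Group Γ] [MulAction Γ (V d)]

theorem AUMD_St {G : V d → V d →L[ℝ] V d} {r0 R : ℝ} (hM : AUMD_M (Γ := Γ) G r0 R) {Φ : ℝ → P d → P d} (hΦ : Continuous (Φ 1))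
    (hl : ∀ γ : Γ, Continuous (lft γ : P d → P d)) (r : ℝ) (γ γ' : Γ) :
    MeasurableSet {x : P d × P d | St G Φ r0 r R ((γ, x.1) : YS Γ d) ((γ', x.2) : YS Γ d)} := by
  have h1 : MeasurableSet {x : P d × P d | ((γ, x.1) : YS Γ d) ∈ GW Γ G r0 2 R} :=
    measurable_fst ((AUMD_in γ) hM.gm)
  have h2 : MeasurableSet {x : P d × P d | ((γ', x.2) : YS Γ d) ∈ GW Γ G r0 2 R} :=
    measurable_snd ((AUMD_in γ') hM.gm)
  have h3 : MeasurableSet {x : P d × P d | dist (Φ 1 x.1) (lft (γ⁻¹ * γ') x.2) < r} :=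
    (isOpen_lt ((hΦ.comp continuous_fst).dist ((hl _).comp continuous_snd)) continuous_const).measurableSet
  exact h1.inter (h2.inter h3)

theorem AUMD_Sti {G : V d → V d →L[ℝ] V d} {r0 R : ℝ} (hM : AUMD_M (Γ := Γ) G r0 R) {Φ : ℝ → P d → P d} (r : ℝ) (γ : Γ)
    (y y' : YS Γ d) : St G Φ r0 r R (γ • y) (γ • y') ↔ St G Φ r0 r R y y' := by
  have h1 : (rel (γ • y) (γ • y') : P d) = rel y y' := by
    show lft ((γ * y.1)⁻¹ * (γ * y'.1)) y'.2 = lft (y.1⁻¹ * y'.1) y'.2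
    have e : (γ * y.1)⁻¹ * (γ * y'.1) = y.1⁻¹ * y'.1 := by group
    rw [e]
  unfold St
  rw [hM.gi, hM.gi, h1]
  exact Iff.rfl

/-- the kernel -/
theorem AUMD_ker {G : V d → V d →L[ℝ] V d} {r0 R : ℝ} (hM : AUMD_M (Γ := Γ) G r0 R) {Φ : ℝ → P d → P d} (hΦ : Continuous (Φ 1))
    (hl : ∀ γ : Γ, Continuous (lft γ : P d → P d)) (r : ℝ) (hσ : SigmaFinite (mv G))
    (hc : ∀ γ : Γ, Continuous fun x : V d => γ • x) (hmv : ∀ γ : Γ, MeasurePreserving (fun x : V d => γ • x) (mv G) (mv G))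
    (Ψ E : YS Γ d → V d → ℂ) (hΨ : ∀ γ : Γ, Continuous fun x : P d × V d => Ψ ((γ, x.1) : YS Γ d) x.2)
    (hE : ∀ γ : Γ, Continuous fun x : P d × V d => E ((γ, x.1) : YS Γ d) x.2)
    (hΨi : ∀ (γ : Γ) (y : YS Γ d) (z : V d), Ψ (γ • y) (γ • z) = Ψ y z)
    (hEi : ∀ (γ : Γ) (y : YS Γ d) (z : V d), E (γ • y) (γ • z) = E y z) (B : ℝ) (S : Finset Γ)
    (hB : ∀ y ∈ GW Γ G r0 2 R, ∀ y' ∈ GW Γ G r0 2 R, ‖∫ z, conj (Ψ y z) * E y' z ∂mv G‖ ≤ B)
    (hS : ∀ y ∈ GW Γ G r0 2 R, ∀ y' ∈ GW Γ G r0 2 R, (∫ z, conj (Ψ y z) * E y' z ∂mv G) ≠ 0 → y.1⁻¹ * y'.1 ∈ S)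
    (K : YS Γ d → YS Γ d → ℂ) (hK1 : ∀ y y', St G Φ r0 r R y y' → K y y' = ∫ z, conj (Ψ y z) * E y' z ∂mv G)
    (hK2 : ∀ y y', ¬ St G Φ r0 r R y y' → K y y' = 0) :
    KY K ∧ AUMD_S G r0 R K ∧ ∀ y y', K y y' ≠ 0 → St G Φ r0 r R y y' ∧ y.1⁻¹ * y'.1 ∈ S := by
  classical
  have hcnt := hM.cnt
  have hne : ∀ y y', K y y' ≠ 0 → St G Φ r0 r R y y' := by
    intro y y' h
    by_contra hx
    exact h (hK2 y y' hx)
  have hne2 : ∀ y y', K y y' ≠ 0 → St G Φ r0 r R y y' ∧ y.1⁻¹ * y'.1 ∈ S := by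
    intro y y' h
    have hst := hne y y' h
    refine ⟨hst, hS y hst.1 y' hst.2.1 ?_⟩
    rwa [hK1 y y' hst] at h
  refine ⟨⟨?_, ⟨max B 0, fun y y' => ?_⟩, ?_, ⟨S, fun y y' h => (hne2 y y' h).2⟩⟩, fun y y' h => ⟨(hne y y' h).1, (hne y y' h).2.1⟩, hne2⟩
  · refine AUMD_m2 fun γ γ' => ?_
    have hI : Measurable fun x : P d × P d => ∫ z, conj (Ψ ((γ, x.1) : YS Γ d) z) * E ((γ', x.2) : YS Γ d) z ∂mv G := by
      have h1 : Measurable (Function.uncurry fun (x : P d × P d) (z : V d) => conj (Ψ ((γ, x.1) : YS Γ d) z) * E ((γ', x.2) : YS Γ d) z) := by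
        have m1 : Continuous fun x : (P d × P d) × V d => conj (Ψ ((γ, x.1.1) : YS Γ d) x.2) :=
          Complex.continuous_conj.comp ((hΨ γ).comp (continuous_fst.fst.prodMk continuous_snd))
        have m2 : Continuous fun x : (P d × P d) × V d => E ((γ', x.1.2) : YS Γ d) x.2 :=
          (hE γ').comp (continuous_fst.snd.prodMk continuous_snd)
        exact (m1.mul m2).measurable
      exact (h1.stronglyMeasurable.integral_prod_right (ν := mv G)).measurable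
    have hms := AUMD_St hM hΦ hl r γ γ'
    have h1 : (fun x : P d × P d => Function.uncurry K (((γ, x.1) : YS Γ d), ((γ', x.2) : YS Γ d))) =
        {x : P d × P d | St G Φ r0 r R ((γ, x.1) : YS Γ d) ((γ', x.2) : YS Γ d)}.indicator
          fun x => ∫ z, conj (Ψ ((γ, x.1) : YS Γ d) z) * E ((γ', x.2) : YS Γ d) z ∂mv G := by
      funext x
      by_cases hx : St G Φ r0 r R ((γ, x.1) : YS Γ d) ((γ', x.2) : YS Γ d)
      · rw [indicator_of_mem (show x ∈ {x : P d × P d | St G Φ r0 r R ((γ, x.1) : YS Γ d) ((γ', x.2) : YS Γ d)} from hx)]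
        exact hK1 _ _ hx
      · rw [indicator_of_notMem (show x ∉ {x : P d × P d | St G Φ r0 r R ((γ, x.1) : YS Γ d) ((γ', x.2) : YS Γ d)} from hx)]
        exact hK2 _ _ hx
    rw [h1]
    exact hI.indicator hms
  · by_cases hx : St G Φ r0 r R y y'
    · rw [hK1 y y' hx]
      exact (hB y hx.1 y' hx.2.1).trans (le_max_left _ _)
    · rw [hK2 y y' hx, norm_zero]
      exact le_max_right _ _
  · intro γ y y'
    have hint : ∫ z, conj (Ψ (γ • y) z) * E (γ • y') z ∂mv G = ∫ z, conj (Ψ y z) * E y' z ∂mv G := by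
      have he : MeasurableEmbedding fun z : V d => γ • z := by
        refine (MeasurableEquiv.mk ⟨fun z : V d => γ • z, fun z : V d => γ⁻¹ • z, fun z => inv_smul_smul γ z, fun z => smul_inv_smul γ z⟩
          (hc γ).measurable (hc γ⁻¹).measurable).measurableEmbedding
      have h1 := (hmv γ).integral_comp he (fun z => conj (Ψ (γ • y) z) * E (γ • y') z)
      rw [← h1]
      refine integral_congr_ae (Eventually.of_forall fun z => ?_)
      show conj (Ψ (γ • y) (γ • z)) * E (γ • y') (γ • z) = conj (Ψ y z) * E y' z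
      rw [hΨi, hEi]
    by_cases hx : St G Φ r0 r R y y'
    · rw [hK1 y y' hx, hK1 _ _ ((AUMD_Sti hM r γ y y').2 hx), hint]
    · rw [hK2 y y' hx, hK2 _ _ fun h => hx ((AUMD_Sti hM r γ y y').1 h)]

theorem AUMD_Lag (d : ℕ) : Lag 1 (1 : MC d) (Complex.I • 1) := by
  refine ⟨?_, ?_, ?_, ?_⟩
  · rw [Matrix.transpose_one, Matrix.one_mul, Matrix.transpose_smul, Matrix.transpose_one, Matrix.mul_one]
  · rw [Matrix.conjTranspose_one, Matrix.one_mul, Matrix.conjTranspose_smul, Matrix.conjTranspose_one, Matrix.mul_one]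
    have e : star Complex.I = -Complex.I := Complex.conj_I
    rw [e, ← sub_smul]
    congr 1
    ring
  · intro i j
    by_cases h : i = j
    · rw [h, Matrix.one_apply_eq]; simp
    · rw [Matrix.one_apply_ne h]; simp
  · intro i j
    rw [Matrix.smul_apply]
    by_cases h : i = j
    · rw [h, Matrix.one_apply_eq]; simp
    · rw [Matrix.one_apply_ne h]; simp

theorem AUMD_SG {r r' : ℝ} (h : r ≤ r') {γ : Γ} (hγ : γ ∈ SG Γ d r) : γ ∈ SG Γ d r' := by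
  obtain ⟨x, h1, h2⟩ := hγ
  exact ⟨x, h1.trans h, h2.trans h⟩

/-- **Row AUMD** -/
theorem AUMD_proof (hAULD : AULD_stmt) (hABMR : ABMR_stmt) (hAQSD : AQSD_stmt) (hADMD : ADMD_stmt) (hALFX : ALFX_stmt)
    (hAMVI : AMVI_stmt) (hASGF : ASGF_stmt) : AUMD_stmt := by
  classical
  intro d Γ _ _ K k B r0 χ hK hPU
  obtain ⟨C1, hC1, hul⟩ := hAULD d Γ K k B r0 χ hK hPU
  refine ⟨max C1 8, le_trans (by norm_num) (le_max_right _ _), ?_⟩
  intro ch A hch hA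
  set C := max C1 8 with hCdef
  have hC8 : 8 ≤ C := le_max_right _ _
  have hCC1 : C1 ≤ C := le_max_left _ _
  have hz := hA.z
  have hz1 : A.z ≤ A.z1 := by nlinarith [hA.z1]
  have hz10 : 0 < A.z1 := lt_of_lt_of_le hz hz1
  have hz12 : A.z1 ≤ A.z2 := by nlinarith [hA.z2]
  have hz20 : 0 < A.z2 := lt_of_lt_of_le hz10 hz12
  have hCz1 : C * A.z1 ≤ 1 := by
    have h1 := hA.z2
    have h2 := hA.up
    nlinarith
  have hC1z1 : C1 * A.z1 ≤ 1 := le_trans (mul_le_mul_of_nonneg_right hCC1 hz10.le) hCz1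
  have hz18 : A.z1 ≤ 1 / 8 := by nlinarith
  obtain ⟨R1, hR1, hul'⟩ := hul ch A.z A.z1 0 hch hz hz1 hC1z1
  obtain ⟨R2, hR2, hqs⟩ := hAQSD d Γ K k B r0 χ ch A.z hK hPU hch hz (by linarith)
  refine ⟨max R1 R2, hR1.trans (le_max_left _ _), ?_⟩
  intro R G Φ hR hOK
  have hRR1 : R1 ≤ R := (le_max_left _ _).trans hR
  have hRR2 : R2 ≤ R := (le_max_right _ _).trans hR
  have h1R : 1 ≤ R := hR1.trans hRR1
  obtain ⟨hmv1, -, -, hmv4, -, hmv6, -⟩ := hAMVI d Γ K k B G hK hOK.cls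
  obtain ⟨hd1, hd2, -, -, hd5, -⟩ := hADMD d Γ K k B G hK hOK.cls
  obtain ⟨hl1, -, -, -, -, -, -, -, -, -, -⟩ := hALFX d Γ K k B G Φ hOK
  obtain ⟨hg1, -, -, hg4, -⟩ := hqs R G hRR2 hOK.cls
  obtain ⟨-, hb2, -⟩ := hABMR d Γ K k B G Φ 1 1 (Complex.I • 1) ch A.z1 R hOK (AUMD_Lag d) hch hz10 hz18 h1R
  have hM : AUMD_M (Γ := Γ) G r0 R := ⟨hmv1, hd1, hd2, (hd5 r0 2 R).1, (hd5 r0 2 R).2.1, (hd5 r0 2 R).2.2⟩
  have hΦ : Continuous (Φ 1) := by
    have h1 : Continuous fun q : ℝ × P d => Φ q.1 q.2 := hOK.flow.smooth.continuous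
    exact h1.comp (continuous_const.prodMk continuous_id)
  have hfin : (SG Γ d C).Finite := (hASGF d Γ K hK C 0).1
  obtain ⟨S, hS⟩ : ∃ S : Finset Γ, ∀ γ, γ ∈ S ↔ γ ∈ SG Γ d C := ⟨hfin.toFinset, fun γ => hfin.mem_toFinset⟩
  have hc : ∀ γ : Γ, Continuous fun x : V d => γ • x := fun γ => (hK.smooth γ).continuous
  have hψc : ∀ γ : Γ, Continuous fun x : P d × V d => psi G Φ χ ch A.z A.z1 R 1 ((γ, x.1) : YS Γ d) x.2 :=
    AUMD_psic G Φ χ ch A.z A.z1 R 1 hPU.smooth.continuous hc hb2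
  have hψi : ∀ (γ : Γ) (y : YS Γ d) (z : V d), psi G Φ χ ch A.z A.z1 R 1 (γ • y) (γ • z) = psi G Φ χ ch A.z A.z1 R 1 y z :=
    AUMD_psii G Φ χ ch A.z A.z1 R 1
  obtain ⟨hus1, hus2, hus3⟩ := AUMD_ker hM hΦ (fun γ => (hl1 γ).continuous) (A.r R) hmv4 hc hmv6 (psi G Φ χ ch A.z A.z1 R 1)
    (Gp G χ ch A.z R) hψc hg1 hψi hg4 (R ^ ((d : ℝ) + C1 * A.z1)) S
    (fun y hy y' hy' => (hul' R 1 G Φ y y' hRR1 hOK (by norm_num) hy hy').1)
    (fun y hy y' hy' h => (hS _).2 (AUMD_SG hCC1 ((hul' R 1 G Φ y y' hRR1 hOK (by norm_num) hy hy').2.1 h)))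
    (us G Φ r0 χ ch A R) (fun y y' h => by unfold us; rw [if_pos h]) (fun y y' h => by unfold us; rw [if_neg h])
  have husn : ∀ n, KY (usn (Γ := Γ) G Φ r0 χ ch A R n) ∧ AUMD_S G r0 R (usn (Γ := Γ) G Φ r0 χ ch A R n) := by
    intro n
    induction n with
    | zero => exact ⟨hus1, hus2⟩
    | succ n ih => exact AUMD_cmp hM hus1 hus2 ih.1 ih.2
  refine ⟨hus1, fun n => (husn n).1, fun y y' h => ⟨(hus3 y y' h).1, (hS _).1 (hus3 y y' h).2⟩, ?_, ?_, ?_, ?_⟩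
  · intro n
    induction n with
    | zero =>
      intro y y' h
      have h1 := hus3 y y' h
      exact ⟨h1.1, h1.1.1, h1.1.2.1, [y.1⁻¹ * y'.1], rfl, fun γ hγ => by
        rw [List.mem_singleton] at hγ
        rw [hγ]
        exact (hS _).1 h1.2, List.prod_singleton⟩
    | succ n ih =>
      intro y y' h
      obtain ⟨x, hx1, hx2⟩ := AUMD_ex (show ∫ x, us G Φ r0 χ ch A R y x * usn G Φ r0 χ ch A R n x y' ∂mY Γ d ≠ 0 from h)
      obtain ⟨a1, a2⟩ := hus3 y x hx1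
      obtain ⟨b1, b2, b3, l, b4, b5, b6⟩ := ih x y' hx2
      refine ⟨⟨x, a1, b1⟩, a1.1, b3, (y.1⁻¹ * x.1) :: l, ?_, ?_, ?_⟩
      · rw [List.length_cons, b4]
      · intro γ hγ
        rcases List.mem_cons.1 hγ with h1 | h1
        · rw [h1]
          exact (hS _).1 a2
        · exact b5 γ h1
      · rw [List.prod_cons, b6, ← AUMD_rel]
  · intro L Λ F T v hD hL hL' hv
    exact ⟨AUMD_FP hM hL hL' hD hv, AUMD_FP2 hM hL hL' hD hv⟩
  · intro n
    induction n with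
    | zero => intro y y'; rfl
    | succ n ih =>
      intro y y'
      have h1 : usn G Φ r0 χ ch A R (n + 1) = cmZ (mY Γ d) (usn G Φ r0 χ ch A R n) (us G Φ r0 χ ch A R) := by
        funext a b
        exact ih a b
      show cmZ (mY Γ d) (us G Φ r0 χ ch A R) (usn G Φ r0 χ ch A R (n + 1)) y y' = cmZ (mY Γ d) (cmZ (mY Γ d) (us G Φ r0 χ ch A R) (usn G Φ r0 χ ch A R n)) (us G Φ r0 χ ch A R) y y'
      rw [h1]
      exact (AUMD_ass hM hus1 hus2 (husn n).1 (husn n).2 hus1 y y').symm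
  · intro Λ F T v hD hv n y
    obtain ⟨b, hb⟩ := hv.bdd
    exact AUMD_fub hM hus1 hus2 (husn n).1 (husn n).2 hv.meas hb y

end

end Pool.Agent.VD

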